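import Pool.Agent.W533.V.Par2

set_option autoImplicit false
set_option linter.unusedSectionVars false
set_option linter.unusedSimpArgs false

/-!
The main theorem for `p > 2`.
-/

open Finset Real Filter Topology

namespace Pool.Agent.W533.V

open Pool.Agent.W533.U (ellp sgz sgz_cast glue_exists)

/-- the final numerical contradiction -/
lemma num_contra {c36 c3 c6 Q E κ ζ K' Dd x a b Tp B1 B2 N eps U1 U2 s c : ℝ}
    (h36 : c36 = c3 * c6) (hc3 : 0 < c3) (hc6 : 0 < c6) (hQ : 0 < Q) (hE : 0 < E) (hκ : 0 < κ)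
    (hζ : 0 < ζ) (hx : 0 < x) (hc : 0 < c) (heps : 0 ≤ eps)
    (hTp : 0 < Tp)
    (ha : a ≤ 2000 * x) (hb : b ≤ x) (hB1 : Tp * B1 = κ) (hB2 : N * B2 ≤ s * x)
    (he1 : 2 * Tp * eps ≤ κ) (he2 : 2 * N * eps ≤ x)
    (hU1 : U1 = c36 * (2000 + Q) * E * (4 * κ)) (hU2 : U2 = c3 * 4 * E * (s + 1))
    (hζ1 : c36 * Q * E * (4 * κ) * ζ ≤ c / 8) (hδ1 : c36 * Q * K' * Dd ≤ c / 8)
    (hx1 : U1 * x ≤ c / 8) (hx2 : U2 * x ≤ c / 8)
    (key : c ≤ c3 * (c6 * ((a + Q * (ζ + b)) * Tp * (E * (2 * (B1 + 2 * eps))) + Q * K' * Dd) +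
      2 * N * (E * (2 * (B2 + 2 * eps))))) : False := by
  have e1 : (a + Q * (ζ + b)) * Tp * (E * (2 * (B1 + 2 * eps))) =
      (a + Q * (ζ + b)) * (2 * E * (Tp * B1 + 2 * Tp * eps)) := by ring
  have e2 : 2 * N * (E * (2 * (B2 + 2 * eps))) = 4 * E * (N * B2 + 2 * N * eps) := by ring
  rw [e1, e2, hB1] at key
  have hneg : 0 ≤ 2 * E * (κ + 2 * Tp * eps) := by positivity
  have h1 : a + Q * (ζ + b) ≤ (2000 + Q) * x + Q * ζ := by nlinarith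
  have h2 : (a + Q * (ζ + b)) * (2 * E * (κ + 2 * Tp * eps)) ≤
      ((2000 + Q) * x + Q * ζ) * (2 * E * (κ + κ)) := by
    refine (mul_le_mul_of_nonneg_right h1 hneg).trans ?_
    refine mul_le_mul_of_nonneg_left ?_ (by positivity)
    exact mul_le_mul_of_nonneg_left (by linarith) (by positivity)
  have h3 : 4 * E * (N * B2 + 2 * N * eps) ≤ 4 * E * (s * x + x) :=
    mul_le_mul_of_nonneg_left (by linarith) (by positivity)
  have h4 := mul_le_mul_of_nonneg_left (add_le_add_left h2 (Q * K' * Dd)) hc6.le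
  have h5 := mul_le_mul_of_nonneg_left (add_le_add h4 h3) hc3.le
  have h6 : c3 * (c6 * (((2000 + Q) * x + Q * ζ) * (2 * E * (κ + κ)) + Q * K' * Dd) +
      4 * E * (s * x + x)) = U1 * x + c36 * Q * E * (4 * κ) * ζ + c36 * Q * K' * Dd + U2 * x := by
    rw [hU1, hU2, h36]; ring
  have h7 := key.trans (h5.trans h6.le)
  linarith

/-- constants -/
lemma consts {p D K : ℝ} (hp : 2 < p) (hD : 0 < D) (hK : 0 < K) :
    ∃ c κ c36 ζ δ s0 U1 U2 U3 s : ℝ, c = (1 / 2) ^ p * 2 ^ (p / 2) ∧ 0 < c ∧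
      κ = K * ((π / 2) ^ p * 5 ^ (p / 2)) ∧ 0 < κ ∧ c36 = 3 ^ p * 6 ^ p ∧ 0 < ζ ∧ 0 < δ ∧
      s0 = 2 * ((π / 2) ^ p * K) ∧
      U1 = c36 * (2000 + (p / 2) ^ 2 * 2 ^ (p - 2)) * (2 * D) ^ p * (4 * κ) ∧ 0 < U1 ∧
      U2 = 3 ^ p * 4 * (2 * D) ^ p * (s0 + 1) ∧ 0 < U2 ∧
      U3 = D ^ p * (2 * (π ^ p * K)) ∧ 0 < U3 ∧ 0 < s ∧ (U1 + U2 + U3) * s = c / 8 ∧
      c36 * ((p / 2) ^ 2 * 2 ^ (p - 2)) * (2 * D) ^ p * (4 * κ) * ζ ≤ c / 8 ∧
      c36 * ((p / 2) ^ 2 * 2 ^ (p - 2)) * ζ ^ (-(2 / (p - 2))) * (D * δ) ^ p ≤ c / 8 := by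
  have hp0 : 0 < p := by linarith
  have key : ∀ c κ c36 Q E c3 s0 U3 : ℝ, 0 < c → 0 < κ → 0 < c36 → 0 < Q → 0 < E → 0 < c3 →
      0 < s0 → 0 < U3 → ∃ ζ δ U1 U2 s : ℝ, 0 < ζ ∧ 0 < δ ∧
        U1 = c36 * (2000 + Q) * E * (4 * κ) ∧ 0 < U1 ∧ U2 = c3 * 4 * E * (s0 + 1) ∧ 0 < U2 ∧
        0 < s ∧ (U1 + U2 + U3) * s = c / 8 ∧ c36 * Q * E * (4 * κ) * ζ ≤ c / 8 ∧
        c36 * Q * ζ ^ (-(2 / (p - 2))) * (D * δ) ^ p ≤ c / 8 := by
    intro c κ c36 Q E c3 s0 U3 hc hκ hc36 hQ hE hc3 hs0 hU3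
    obtain ⟨ζ, hζ⟩ : ∃ ζ, ζ = c / (8 * (c36 * Q * E * (4 * κ))) := ⟨_, rfl⟩
    have hζ0 : 0 < ζ := by rw [hζ]; positivity
    obtain ⟨K', hK'⟩ : ∃ K', K' = ζ ^ (-(2 / (p - 2))) := ⟨_, rfl⟩
    have hK'0 : 0 < K' := by rw [hK']; exact Real.rpow_pos_of_pos hζ0 _
    refine ⟨ζ, (c / (8 * (c36 * Q * K'))) ^ (1 / p) / D, c36 * (2000 + Q) * E * (4 * κ),
      c3 * 4 * E * (s0 + 1),
      c / (8 * (c36 * (2000 + Q) * E * (4 * κ) + c3 * 4 * E * (s0 + 1) + U3)), hζ0,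
      by positivity, rfl, by positivity, rfl, by positivity, by positivity, ?_, ?_, ?_⟩
    · field_simp
    · rw [hζ]
      refine le_of_eq ?_
      field_simp
    · rw [mul_div_cancel₀ _ hD.ne', ← Real.rpow_mul (by positivity),
        one_div_mul_cancel hp0.ne', Real.rpow_one, ← hK']
      refine le_of_eq ?_
      field_simp
  obtain ⟨ζ, δ, U1, U2, s, h1, h2, h3, h4, h5, h6, h7, h8, h9, h10⟩ :=
    key ((1 / 2) ^ p * 2 ^ (p / 2)) (K * ((π / 2) ^ p * 5 ^ (p / 2))) (3 ^ p * 6 ^ p)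
      ((p / 2) ^ 2 * 2 ^ (p - 2)) ((2 * D) ^ p) (3 ^ p) (2 * ((π / 2) ^ p * K))
      (D ^ p * (2 * (π ^ p * K))) (by positivity) (by positivity) (by positivity) (by positivity)
      (by positivity) (by positivity) (by positivity) (by positivity)
  exact ⟨_, _, _, ζ, δ, _, U1, U2, _, s, rfl, by positivity, rfl, by positivity, rfl, h1, h2, rfl,
    h3, h4, h5, h6, rfl, by positivity, h7, h8, h9, h10⟩

/-- the glued space has no embedding of distortion `D`, `p > 2` -/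
theorem no_embed_gt {p : ℝ} (hp : 2 < p) {D : ℝ} (hD : 1 ≤ D) :
    ∃ (Lt : Type) (M : MetricSpace (Lt ⊕ Lt)) (φ ψ : Lt → ellp p) (P : Set (Lt ⊕ Lt)),
      P.Finite ∧
      (∀ a b, M.dist (Sum.inl a) (Sum.inl b) = ‖φ a - φ b‖) ∧
      (∀ a b, M.dist (Sum.inr a) (Sum.inr b) = ‖ψ a - ψ b‖) ∧
      ¬ ∃ F : Lt ⊕ Lt → ellp p, (∀ x ∈ P, ∀ y ∈ P, M.dist x y ≤ ‖F x - F y‖) ∧
        (∀ x ∈ P, ∀ y ∈ P, ‖F x - F y‖ ≤ D * M.dist x y) := by
  have hp0 : 0 < p := by linarith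
  have hp1 : 1 ≤ p := by linarith
  have hD0 : 0 < D := by linarith
  haveI : Fact (1 ≤ ENNReal.ofReal p) := ⟨by simpa using hp1⟩
  obtain ⟨K, hK⟩ := exists_KhinC hp0
  have hKp := hK.1
  obtain ⟨c, κ, c36, ζ, δ, s0, U1, U2, U3, s, hc, hc0, hκ, hκ0, hc36, hζ0, hδ0, hs0, hU1, hU10,
    hU2, hU20, hU3, hU30, hs0', hUs, hζ1, hδ1⟩ := consts hp hD0 hKp
  have hK'0 : 0 < ζ ^ (-(2 / (p - 2))) := Real.rpow_pos_of_pos hζ0 _
  obtain ⟨ε, hε⟩ : ∃ ε, ε = (2 * δ) ^ p := ⟨_, rfl⟩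
  have hε0 : 0 < ε := by rw [hε]; positivity
  -- the integer parameters
  obtain ⟨t, ht, hx, hlog, hexp⟩ := exists_t hp
    (by positivity : 0 < ε ^ 2 / (2 * ((2 : ℝ) ^ p) ^ 2)) hs0'
  have ht0 : (0 : ℝ) < t := by exact_mod_cast (by omega : 0 < t)
  have ht16 : (16 : ℝ) ≤ t := by exact_mod_cast ht
  have ht1 : (1 : ℝ) ≤ t := by linarith
  have hsum := par_sum hp ht hlog hexp
  have hpa := par_a hp ht
  have hpb := par_b hp ht
  have hL := LL_pos hp ht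
  have hn : 0 < t ^ 20 := by positivity
  have hpB1 := par_B1 (K := K) hp hn
  obtain ⟨r, hr⟩ : ∃ r, r + 1 = (t ^ 20) ^ 3 := ⟨(t ^ 20) ^ 3 - 1, Nat.sub_add_cancel (Nat.succ_le_of_lt (by positivity))⟩
  have hpB2 := par_B2 hp hKp ht (by omega : r ≤ (t ^ 20) ^ 3)
  have hplow := par_low hp hKp ht
  have hn16 : (16 : ℝ) ≤ ((t ^ 20 : ℕ) : ℝ) := by
    push_cast
    calc (16 : ℝ) ≤ t := ht16
      _ ≤ t ^ 20 := le_self_pow₀ ht1 (by norm_num)
  have hcast : ((t ^ 20 : ℕ) : ℝ) = (t : ℝ) ^ 20 := by push_cast; rfl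
  clear hexp hlog
  rw [← hκ] at hpB1
  rw [← hs0] at hpB2
  generalize hxdef : (t : ℝ) ^ (-(p - 2)) = x at hx hpa hpb hpB2 hplow
  have hx0 : 0 < x := by rw [← hxdef]; exact Real.rpow_pos_of_pos ht0 _
  have hx1 : U1 * x ≤ c / 8 := by
    rw [← hUs]
    exact mul_le_mul (by linarith only [hU20, hU30]) hx hx0.le (by linarith only [hU10, hU20, hU30])
  have hx2 : U2 * x ≤ c / 8 := by
    rw [← hUs]
    exact mul_le_mul (by linarith only [hU10, hU30]) hx hx0.le (by linarith only [hU10, hU20, hU30])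
  have hx3 : U3 * x ≤ c / 8 := by
    rw [← hUs]
    exact mul_le_mul (by linarith only [hU10, hU20]) hx hx0.le (by linarith only [hU10, hU20, hU30])
  generalize hndef : t ^ 20 = n at hsum hpa hpb hn hpB1 hr hpB2 hplow hn16 hcast
  have hnN : n ≤ n * LL p t := Nat.le_mul_of_pos_right n hL
  generalize hNdef : n * LL p t = N at hsum hpa hpB2 hplow hnN
  have hN0 : 0 < N := lt_of_lt_of_le hn hnN
  have hN0' : (0 : ℝ) < N := by exact_mod_cast hN0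
  have hn' : (0 : ℝ) < n := by exact_mod_cast hn
  have hT : 0 < n ^ 3 := by positivity
  obtain ⟨M, hMdef⟩ : ∃ M, M = 4 * (n ^ 3 * n) := ⟨_, rfl⟩
  rw [← hMdef] at hsum hpB1 hpB2
  haveI : NeZero M := ⟨by rw [hMdef]; positivity⟩
  haveI : Nonempty (Fin N) := ⟨⟨0, hN0⟩⟩
  generalize hTp : ((n ^ 3 : ℕ) : ℝ) ^ p * (5 * n / ((n ^ 3 : ℕ) : ℝ)) ^ (p / 2) = Tp at hpB1
  have hTp0 : 0 < Tp := by rw [← hTp]; positivity
  -- the last parameter
  obtain ⟨eps, heps0, heps1, heps2, heps3⟩ : ∃ eps : ℝ, 0 < eps ∧ 2 * Tp * eps ≤ κ ∧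
      2 * N * eps ≤ x ∧ D ^ p * (2 * N * eps) ≤ c / 2 := by
    refine ⟨min (κ / (2 * Tp)) (min (x / (2 * N)) (c / (2 * (D ^ p * (2 * N))))),
      by positivity, ?_, ?_, ?_⟩
    · calc 2 * Tp * _ ≤ 2 * Tp * (κ / (2 * Tp)) :=
            mul_le_mul_of_nonneg_left (min_le_left _ _) (by positivity)
        _ = κ := by field_simp
    · calc 2 * (N : ℝ) * _ ≤ 2 * N * (x / (2 * N)) :=
            mul_le_mul_of_nonneg_left ((min_le_right _ _).trans (min_le_left _ _)) (by positivity)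
        _ = x := by field_simp
    · rw [← mul_assoc]
      calc D ^ p * (2 * (N : ℝ)) * _ ≤ D ^ p * (2 * (N : ℝ)) * (c / (2 * (D ^ p * (2 * N)))) :=
            mul_le_mul_of_nonneg_left ((min_le_right _ _).trans (min_le_right _ _)) (by positivity)
        _ = c / 2 := by field_simp
  -- the family of signs
  obtain ⟨W, hW1, hW2, hW3⟩ := exists_W (M := M) hn hnN hp0 (μ := 1 / (t : ℝ) ^ 5) hε0
    (by positivity) eps hsum
  have g : Good n N (r + 1) W (1 / (t : ℝ) ^ 5) := by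
    refine ⟨hn, Nat.succ_pos r, ?_, ?_, by positivity, hW1, hW2⟩
    · rw [hr]
      push_cast
      rw [div_le_div_iff₀ (by positivity) (by norm_num)]
      clear hsum hpa hpb hpB1 hpB2 hplow hζ1 hδ1 hU1 hU2 hU3 hc hκ hc36 hs0 hUs
      nlinarith [mul_pos hn' hn', mul_pos (mul_pos hn' hn') hn']
    · rw [hr]
      push_cast
      rw [div_le_one (by positivity)]
      clear hsum hpa hpb hpB1 hpB2 hplow hζ1 hδ1 hU1 hU2 hU3 hc hκ hc36 hs0 hUs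
      nlinarith [mul_pos hn' hn', mul_pos (mul_pos hn' hn') hn']
  -- the metric
  obtain ⟨MS, hM1, hM2, hM3⟩ := glue_exists (EmI M p eps W)
    (EmI M p eps (fun w : Fin n → Bool => w)) (EmI_inj M hp1 heps0 W)
    (EmI_inj M hp1 heps0 (fun w : Fin n → Bool => w)) Set.univ ⟨0, trivial⟩ hδ0
    (fun z _ z' _ => by
      refine abs_sub_le_of_rpow hp1 (norm_nonneg _) (norm_nonneg _) (by positivity) ?_
      rw [norm_EmI M hp1 heps0, norm_EmI M hp1 heps0, ← hε]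
      exact hW3 (z - z'))
  refine ⟨Fin n → ZMod M, MS, EmI M p eps W, EmI M p eps (fun w : Fin n → Bool => w), Set.univ,
    Set.finite_univ, hM1, hM2, ?_⟩
  rintro ⟨F, hF1, hF2⟩
  have hF1' : ∀ a b, MS.dist a b ≤ ‖F a - F b‖ := fun a b => hF1 a trivial b trivial
  have hF2' : ∀ a b, ‖F a - F b‖ ≤ D * MS.dist a b := fun a b => hF2 a trivial b trivial
  have key := asm_main (V := fun z => F (Sum.inl z) - F (Sum.inr z)) (η := 1 / (t : ℝ) ^ 2)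
    (K' := ζ ^ (-(2 / (p - 2)))) (ζ := ζ) (T := n ^ 3) (δ := δ) hp hD hK heps0 hδ0 g hN0 hT hMdef
    (by positivity) (t ^ 4) ?_ ?_ hζ0.le hK'0.le (young hp hζ0) ?_ ?_ ?_ ?_
  · rw [hr, hTp, ← hc] at key
    exact num_contra (s := s0) hc36 (by positivity) (by positivity) (by positivity)
      (by positivity) hκ0 hζ0 hx0 hc0 heps0.le hTp0 hpa hpb hpB1
      hpB2 heps1 heps2 hU1 hU2 hζ1 hδ1 hx1 hx2 key
  · rw [hr]
    push_cast
    rw [hcast]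
    have e1 : (t : ℝ) ^ 4 * (1 / (t : ℝ) ^ 5 + (t : ℝ) ^ 20 / ((t : ℝ) ^ 20) ^ 3) =
        1 / t + 1 / (t : ℝ) ^ 36 := by
      field_simp
    rw [e1]
    have e2 : 1 / (t : ℝ) ≤ 1 / 16 := one_div_le_one_div_of_le (by norm_num) ht16
    have e3 : 1 / (t : ℝ) ^ 36 ≤ 1 / 16 :=
      one_div_le_one_div_of_le (by norm_num) (ht16.trans (le_self_pow₀ ht1 (by norm_num)))
    linarith
  · push_cast
    refine le_of_eq ?_
    field_simp
  · have e1 : D ^ p * ((π / n) ^ p * (K * (n : ℝ) ^ (p / 2)) + 2 * eps) * N =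
        D ^ p * (N * ((π / n) ^ p * (K * (n : ℝ) ^ (p / 2)))) + D ^ p * (2 * N * eps) := by ring
    have e2 := mul_le_mul_of_nonneg_left hplow (by positivity : 0 ≤ D ^ p)
    have e3 : D ^ p * (2 * (π ^ p * K) * x) = U3 * x := by rw [hU3]; ring
    rw [← mul_div_assoc, ← hc, le_div_iff₀ hN0', e1]
    linarith
  · intro z
    refine (hF2' _ _).trans (mul_le_mul_of_nonneg_left ?_ hD0.le)
    have := hM3 z z z trivial
    simpa using this
  · intro z y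
    have h1 := hF1' (Sum.inl (z + y)) (Sum.inl z)
    have h2 := hF2' (Sum.inr (z + y)) (Sum.inr z)
    rw [hM1] at h1
    rw [hM2] at h2
    have h3 : (F (Sum.inl (z + y)) - F (Sum.inr (z + y))) - (F (Sum.inl z) - F (Sum.inr z)) =
        (F (Sum.inl (z + y)) - F (Sum.inl z)) - (F (Sum.inr (z + y)) - F (Sum.inr z)) := by abel
    have h4 := norm_sub_norm_le (F (Sum.inl (z + y)) - F (Sum.inl z))
      (F (Sum.inr (z + y)) - F (Sum.inr z))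
    rw [← h3] at h4
    exact (sub_le_sub h1 h2).trans h4
  · intro z y
    have h1 := hF2' (Sum.inl (z + y)) (Sum.inl z)
    have h2 := hF2' (Sum.inr (z + y)) (Sum.inr z)
    rw [hM1] at h1
    rw [hM2] at h2
    have h3 : (F (Sum.inl (z + y)) - F (Sum.inr (z + y))) - (F (Sum.inl z) - F (Sum.inr z)) =
        (F (Sum.inl (z + y)) - F (Sum.inl z)) - (F (Sum.inr (z + y)) - F (Sum.inr z)) := by abel
    have h4 := norm_sub_le (F (Sum.inl (z + y)) - F (Sum.inl z))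
      (F (Sum.inr (z + y)) - F (Sum.inr z))
    rw [← h3] at h4
    refine h4.trans ((add_le_add h1 h2).trans (le_of_eq ?_))
    ring

end Pool.Agent.W533.V
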