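import Pool.Agent.W533.V.Rand

set_option autoImplicit false
set_option linter.unusedSectionVars false
set_option linter.unusedSimpArgs false

/-!
The inequality violated by an embedding of the glued space.
-/

open Finset Real

namespace Pool.Agent.W533.V

open Pool.Agent.W533.U (ellp sgz sgz_cast glue_exists)

variable {n N M : ℕ} [NeZero M]

/-- sum over the special translations -/
lemma asm_lower {p : ℝ} (hp : 2 < p) {D : ℝ} (hD : 1 ≤ D) {K eps : ℝ} (hK : KhinC p K)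
    (he : 0 < eps) {W : Fin N → Fin n → Bool} (hN : 0 < N) (hn : 0 < n) {T : ℕ} (hT : 0 < T)
    (hM : M = 4 * (T * n))
    (hlow : D ^ p * ((π / n) ^ p * (K * (n : ℝ) ^ (p / 2)) + 2 * eps) ≤
      (1 / 2) ^ p * (2 ^ (p / 2) / N))
    (V : (Fin n → ZMod M) → ellp p)
    (hV : ∀ z y, ‖EmI M p eps W (z + y) - EmI M p eps W z‖ -
      D * ‖EmI M p eps (fun w : Fin n → Bool => w) (z + y) -
        EmI M p eps (fun w : Fin n → Bool => w) z‖ ≤ ‖V (z + y) - V z‖) (i : Fin N)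
    (z : Fin n → ZMod M) :
    (1 / 2) ^ p * (2 ^ (p / 2) / N) ≤ ‖V (z + (2 * T) • cst M (sv (W i))) - V z‖ ^ p := by
  haveI : Nonempty (Fin N) := ⟨⟨0, hN⟩⟩
  haveI : Fact (1 ≤ ENNReal.ofReal p) := ⟨by simpa using (by linarith : 1 ≤ p)⟩
  have hp0 : 0 < p := by linarith
  have hD0 : 0 < D := by linarith
  set e := (2 * T) • cst M (sv (W i)) with he'
  have ha := norm_EmI M (by linarith : 1 ≤ p) he W (z + e) z
  have hb := norm_EmI M (by linarith : 1 ≤ p) he (fun w : Fin n → Bool => w) (z + e) z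
  rw [add_sub_cancel_left] at ha hb
  set a := ‖EmI M p eps W (z + e) - EmI M p eps W z‖ with hadef
  set b := ‖EmI M p eps (fun w : Fin n → Bool => w) (z + e) -
    EmI M p eps (fun w : Fin n → Bool => w) z‖ with hbdef
  have ha0 : 0 ≤ a := norm_nonneg _
  have hb0 : 0 ≤ b := norm_nonneg _
  have h1 : 2 ^ (p / 2) / (N : ℝ) ≤ a ^ p := by
    rw [ha]
    have := PI_ge M hp he.le W i T hM
    rwa [Fintype.card_fin] at this
  have h2 : (D * b) ^ p ≤ (1 / 2 * a) ^ p := by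
    rw [Real.mul_rpow hD0.le hb0, Real.mul_rpow (by norm_num) ha0, hb]
    have h3 := PI_all_le M hp0 hK he.le (W i) T hT hn hM
    calc D ^ p * PI M p eps (fun w : Fin n → Bool => w) e ≤
          D ^ p * ((π / n) ^ p * (K * (n : ℝ) ^ (p / 2)) + 2 * eps) :=
          mul_le_mul_of_nonneg_left h3 (by positivity)
      _ ≤ _ := hlow
      _ ≤ _ := mul_le_mul_of_nonneg_left h1 (by positivity)
  have h3 : D * b ≤ 1 / 2 * a := by
    by_contra hcon
    push Not at hcon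
    have := Real.rpow_lt_rpow (mul_nonneg (by norm_num) ha0) hcon hp0
    exact absurd h2 (not_le.2 this)
  have h4 : 1 / 2 * a ≤ ‖V (z + e) - V z‖ := by
    have h5 := hV z e
    rw [← hadef, ← hbdef] at h5
    generalize ‖V (z + e) - V z‖ = x at h5 ⊢
    clear_value a b
    linarith
  calc (1 / 2) ^ p * (2 ^ (p / 2) / (N : ℝ)) ≤ (1 / 2) ^ p * a ^ p :=
        mul_le_mul_of_nonneg_left h1 (by positivity)
    _ = (1 / 2 * a) ^ p := (Real.mul_rpow (by norm_num) ha0).symm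
    _ ≤ _ := Real.rpow_le_rpow (mul_nonneg (by norm_num) ha0) h4 hp0.le

/-- average of the increments -/
lemma asm_upper {p : ℝ} (hp : 2 < p) {D : ℝ} (hD : 1 ≤ D) {K eps : ℝ} (hK : KhinC p K)
    (he : 0 < eps) {W : Fin N → Fin n → Bool} (hN : 0 < N)
    (V : (Fin n → ZMod M) → ellp p)
    (hV : ∀ z y, ‖V (z + y) - V z‖ ≤ D * (‖EmI M p eps W (z + y) - EmI M p eps W z‖ +
      ‖EmI M p eps (fun w : Fin n → Bool => w) (z + y) -
        EmI M p eps (fun w : Fin n → Bool => w) z‖)) (m : ℕ) :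
    (∑ z, ∑ ξ : Xi m n, ‖V (z + cst M (Yv ξ)) - V z‖ ^ p) / cX m n ≤
      Fintype.card (Fin n → ZMod M) *
        ((2 * D) ^ p * (2 * ((2 * π / M) ^ p * (K * ((m : ℝ) * n) ^ (p / 2)) + 2 * eps))) := by
  haveI : Nonempty (Fin N) := ⟨⟨0, hN⟩⟩
  haveI : Fact (1 ≤ ENNReal.ofReal p) := ⟨by simpa using (by linarith : 1 ≤ p)⟩
  have hp0 : 0 < p := by linarith
  have hD0 : 0 < D := by linarith
  have hC := cX_pos m n
  have h1 : ∀ z y, ‖V (z + y) - V z‖ ^ p ≤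
      (2 * D) ^ p * (PI M p eps W y + PI M p eps (fun w : Fin n → Bool => w) y) := by
    intro z y
    have ha := norm_EmI M (by linarith : 1 ≤ p) he W (z + y) z
    have hb := norm_EmI M (by linarith : 1 ≤ p) he (fun w : Fin n → Bool => w) (z + y) z
    rw [add_sub_cancel_left] at ha hb
    rw [← ha, ← hb]
    refine (Real.rpow_le_rpow (norm_nonneg _) (hV z y) hp0.le).trans ?_
    rw [Real.mul_rpow hD0.le (by positivity), Real.mul_rpow (by norm_num) hD0.le,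
      mul_comm ((2 : ℝ) ^ p), mul_assoc]
    refine mul_le_mul_of_nonneg_left ?_ (by positivity)
    exact add_rpow_le hp0.le (norm_nonneg _) (norm_nonneg _)
  have h2 : (∑ z, ∑ ξ : Xi m n, ‖V (z + cst M (Yv ξ)) - V z‖ ^ p) / cX m n ≤
      (∑ _z : Fin n → ZMod M, ∑ ξ : Xi m n, (2 * D) ^ p * (PI M p eps W (cst M (Yv ξ)) +
        PI M p eps (fun w : Fin n → Bool => w) (cst M (Yv ξ)))) / cX m n := by
    refine div_le_div_of_nonneg_right ?_ hC.le
    exact Finset.sum_le_sum fun z _ => Finset.sum_le_sum fun ξ _ => h1 z _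
  refine h2.trans ?_
  rw [Finset.sum_const, Finset.card_univ, nsmul_eq_mul, mul_div_assoc]
  refine mul_le_mul_of_nonneg_left ?_ (by positivity)
  rw [← Finset.mul_sum, mul_div_assoc]
  refine mul_le_mul_of_nonneg_left ?_ (by positivity)
  rw [Finset.sum_add_distrib, add_div]
  have h3 := avg_PI M hp0 hK he.le W m
  have h4 := avg_PI M hp0 hK he.le (fun w : Fin n → Bool => w) m
  linarith

/-- the final inequality -/
lemma asm_main {p : ℝ} (hp : 2 < p) {D : ℝ} (hD : 1 ≤ D) {K eps δ : ℝ} (hK : KhinC p K)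
    (he : 0 < eps) (hδ : 0 < δ) {r : ℕ} {W : Fin N → Fin n → Bool} {μ : ℝ}
    (g : Good n N (r + 1) W μ) (hN : 0 < N) {T : ℕ} (hT : 0 < T)
    (hM : M = 4 * (T * n)) {η : ℝ} (hη : 0 < η) (k0 : ℕ)
    (hk : (k0 : ℝ) * (μ + n / ((r + 1 : ℕ) : ℝ)) ≤ 1 / 8) (hk1 : 1 ≤ k0 * η ^ 2)
    {ζ K' : ℝ} (hζ : 0 ≤ ζ) (hK0 : 0 ≤ K')
    (hK' : ∀ R F : ℝ, 0 ≤ R → 0 ≤ F → R ^ 2 * F ^ (p - 2) ≤ ζ * R ^ p + K' * F ^ p)
    (hlow : D ^ p * ((π / n) ^ p * (K * (n : ℝ) ^ (p / 2)) + 2 * eps) ≤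
      (1 / 2) ^ p * (2 ^ (p / 2) / N))
    (V : (Fin n → ZMod M) → ellp p)
    (hV0 : ∀ z, ‖V z‖ ≤ D * δ)
    (hV1 : ∀ z y, ‖EmI M p eps W (z + y) - EmI M p eps W z‖ -
      D * ‖EmI M p eps (fun w : Fin n → Bool => w) (z + y) -
        EmI M p eps (fun w : Fin n → Bool => w) z‖ ≤ ‖V (z + y) - V z‖)
    (hV2 : ∀ z y, ‖V (z + y) - V z‖ ≤ D * (‖EmI M p eps W (z + y) - EmI M p eps W z‖ +
      ‖EmI M p eps (fun w : Fin n → Bool => w) (z + y) -
        EmI M p eps (fun w : Fin n → Bool => w) z‖)) :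
    (1 / 2) ^ p * 2 ^ (p / 2) ≤
      3 ^ p * (6 ^ p * ((η ^ (p - 2) * (1000 * N / n) +
          (p / 2) ^ 2 * 2 ^ (p - 2) * (ζ + (T : ℝ) ^ (2 - p))) *
          ((T : ℝ) ^ p * (5 * n / ((r + 1 : ℕ) : ℝ)) ^ (p / 2)) *
            ((2 * D) ^ p * (2 * ((2 * π / M) ^ p *
              (K * ((((r + 1 : ℕ) : ℝ)) * n) ^ (p / 2)) + 2 * eps))) +
        (p / 2) ^ 2 * 2 ^ (p - 2) * K' * (D * δ) ^ p) +
        2 * N * ((2 * D) ^ p * (2 * ((2 * π / M) ^ p *
              (K * (((r : ℕ) : ℝ) * n) ^ (p / 2)) + 2 * eps)))) := by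
  haveI : Nonempty (Fin N) := ⟨⟨0, hN⟩⟩
  haveI : Fact (1 ≤ ENNReal.ofReal p) := ⟨by simpa using (by linarith : 1 ≤ p)⟩
  have hp0 : 0 < p := by linarith
  have hD0 : 0 < D := by linarith
  have hn := g.hn
  have hN' : (0 : ℝ) < N := by exact_mod_cast hN
  have hT' : (0 : ℝ) < T := by exact_mod_cast hT
  have key := g.lp_ineq hp (cst M) hη k0 hk hk1 hζ hK0 hK' T hT V
  have hc : (0 : ℝ) < Fintype.card (Fin n → ZMod M) := by exact_mod_cast Fintype.card_pos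
  set cG : ℝ := ((Fintype.card (Fin n → ZMod M) : ℕ) : ℝ) with hcG
  have h1 : cG * ((1 / 2) ^ p * 2 ^ (p / 2)) ≤
      ∑ i, ∑ z, ‖V (z + (2 * T) • cst M (sv (W i))) - V z‖ ^ p := by
    have h2 : ∑ _i : Fin N, ∑ _z : Fin n → ZMod M, (1 / 2) ^ p * ((2 : ℝ) ^ (p / 2) / N) ≤
        ∑ i, ∑ z, ‖V (z + (2 * T) • cst M (sv (W i))) - V z‖ ^ p :=
      Finset.sum_le_sum fun i _ => Finset.sum_le_sum fun z _ =>
        asm_lower hp hD hK he hN hn hT hM hlow V hV1 i z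
    refine le_trans (le_of_eq ?_) h2
    rw [Finset.sum_const, Finset.sum_const, Finset.card_univ, Finset.card_univ, nsmul_eq_mul,
      nsmul_eq_mul, Fintype.card_fin, ← hcG]
    field_simp
  have h2 := asm_upper hp hD hK he hN V hV2 (r + 1)
  have h3 := asm_upper hp hD hK he hN V hV2 r
  have h4 : ∑ z, ‖V z‖ ^ p ≤ cG * (D * δ) ^ p := by
    refine (Finset.sum_le_sum fun z _ => Real.rpow_le_rpow (norm_nonneg _) (hV0 z) hp0.le).trans
      (le_of_eq ?_)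
    rw [Finset.sum_const, Finset.card_univ, nsmul_eq_mul]
  rw [← hcG] at h2 h3
  refine le_of_mul_le_mul_left (h1.trans (key.trans ?_)) hc
  set A := (η ^ (p - 2) * (1000 * N / n) +
          (p / 2) ^ 2 * 2 ^ (p - 2) * (ζ + (T : ℝ) ^ (2 - p))) *
          ((T : ℝ) ^ p * (5 * n / ((r + 1 : ℕ) : ℝ)) ^ (p / 2)) with hA
  have hA0 : 0 ≤ A := by positivity
  set X1 := (2 * D) ^ p * (2 * ((2 * π / M) ^ p *
              (K * ((((r + 1 : ℕ) : ℝ)) * n) ^ (p / 2)) + 2 * eps))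
  set X2 := (2 * D) ^ p * (2 * ((2 * π / M) ^ p *
              (K * (((r : ℕ) : ℝ) * n) ^ (p / 2)) + 2 * eps))
  have h5 := mul_le_mul_of_nonneg_left h2 hA0
  have h6 := mul_le_mul_of_nonneg_left h4 (by positivity : 0 ≤ (p / 2) ^ 2 * 2 ^ (p - 2) * K')
  have h7 := mul_le_mul_of_nonneg_left h3 (by positivity : (0 : ℝ) ≤ 2 * N)
  have h8 := mul_le_mul_of_nonneg_left (add_le_add h5 h6) (by positivity : (0 : ℝ) ≤ 6 ^ p)
  have h9 := mul_le_mul_of_nonneg_left (add_le_add h8 h7) (by positivity : (0 : ℝ) ≤ 3 ^ p)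
  refine h9.trans (le_of_eq ?_)
  ring

end Pool.Agent.W533.V
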