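import Pool.Agent.W533.V.Smooth

set_option autoImplicit false
set_option linter.unusedSectionVars false
set_option linter.unusedSimpArgs false

/-!
Bessel type inequalities for the increments of the smoothed function.
-/

open Finset

namespace Pool.Agent.W533.V

/-- expansion of a product to first order -/
lemma prod_est {ι : Type} (s : Finset ι) (x : ι → ℝ) :
    |∏ j ∈ s, (1 + x j) - 1 - ∑ j ∈ s, x j| ≤
      Real.exp (∑ j ∈ s, |x j|) - 1 - ∑ j ∈ s, |x j| := by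
  classical
  induction s using Finset.induction_on with
  | empty => simp
  | insert a s ha ih =>
    rw [Finset.prod_insert ha, Finset.sum_insert ha, Finset.sum_insert ha]
    set P := ∏ j ∈ s, (1 + x j)
    set S := ∑ j ∈ s, x j
    set A := ∑ j ∈ s, |x j| with hA
    have hA0 : 0 ≤ A := Finset.sum_nonneg fun _ _ => abs_nonneg _
    have h1 : |P - 1| ≤ Real.exp A - 1 := by
      have := Finset.norm_prod_one_add_sub_one_le s x
      simpa [Real.norm_eq_abs] using this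
    have h2 : (1 + x a) * P - 1 - (x a + S) = (P - 1 - S) + x a * (P - 1) := by ring
    rw [h2]
    have h3 : |x a * (P - 1)| ≤ |x a| * (Real.exp A - 1) := by
      rw [abs_mul]
      exact mul_le_mul_of_nonneg_left h1 (abs_nonneg _)
    have h4 : Real.exp (|x a| + A) ≥ (1 + |x a|) * Real.exp A := by
      rw [Real.exp_add]
      refine mul_le_mul_of_nonneg_right ?_ (Real.exp_pos _).le
      have := Real.add_one_le_exp |x a|
      linarith
    calc |(P - 1 - S) + x a * (P - 1)| ≤ |P - 1 - S| + |x a * (P - 1)| := abs_add_le _ _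
      _ ≤ _ := by nlinarith

lemma prod_est' {n : ℕ} (t : ℝ) (ht : 0 ≤ t) (hn : n * t ≤ 1) (e : Fin n → ℝ)
    (he : ∀ j, |e j| ≤ 1) :
    |∏ j, (1 + t * e j) - 1 - t * ∑ j, e j| ≤ (n * t) ^ 2 := by
  have h := prod_est Finset.univ (fun j => t * e j)
  rw [← Finset.mul_sum] at h
  refine h.trans ?_
  set A := ∑ j, |t * e j| with hA
  have hA0 : 0 ≤ A := Finset.sum_nonneg fun _ _ => abs_nonneg _
  have hA1 : A ≤ n * t := by
    calc A ≤ ∑ _j : Fin n, t := Finset.sum_le_sum fun j _ => by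
            rw [abs_mul, abs_of_nonneg ht]
            nlinarith [he j, abs_nonneg (e j)]
      _ = n * t := by simp
  have h2 : |A| ≤ 1 := by rw [abs_of_nonneg hA0]; linarith
  have h3 := Real.abs_exp_sub_one_sub_id_le h2
  have h4 := le_abs_self (Real.exp A - 1 - A)
  nlinarith

/-- duality -/
lemma bessel {ι κ : Type} [Fintype κ] (s : Finset ι) (t : ι → κ → ℝ) (g : κ → ℝ) (Q : ℝ)
    (hQ0 : 0 ≤ Q) (hQ : ∀ b : ι → ℝ, ∑ x, (∑ i ∈ s, b i * t i x) ^ 2 ≤ Q * ∑ i ∈ s, b i ^ 2) :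
    ∑ i ∈ s, (∑ x, g x * t i x) ^ 2 ≤ Q * ∑ x, g x ^ 2 := by
  set b : ι → ℝ := fun i => ∑ x, g x * t i x with hb
  set S := ∑ i ∈ s, b i ^ 2 with hS
  have hS0 : 0 ≤ S := Finset.sum_nonneg fun _ _ => sq_nonneg _
  have h1 : S = ∑ x, g x * ∑ i ∈ s, b i * t i x := by
    rw [hS]
    simp only [Finset.mul_sum]
    rw [Finset.sum_comm]
    refine Finset.sum_congr rfl fun i _ => ?_
    rw [pow_two]
    nth_rewrite 2 [hb]
    rw [Finset.mul_sum]
    exact Finset.sum_congr rfl fun x _ => by ring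
  have h2 : S ^ 2 ≤ (∑ x, g x ^ 2) * (Q * S) := by
    nth_rewrite 1 [h1]
    refine (Finset.sum_mul_sq_le_sq_mul_sq _ _ _).trans ?_
    exact mul_le_mul_of_nonneg_left (hQ b) (Finset.sum_nonneg fun _ _ => sq_nonneg _)
  rcases hS0.lt_or_eq with h | h
  · have : S * S ≤ (Q * ∑ x, g x ^ 2) * S := by nlinarith
    exact le_of_mul_le_mul_right this h
  · rw [← h]
    exact mul_nonneg hQ0 (Finset.sum_nonneg fun _ _ => sq_nonneg _)

/-- inner product of sign vectors -/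
def ip {n : ℕ} (w w' : Fin n → Bool) : ℝ := ∑ j, sg (w j) * sg (w' j)

lemma ip_self {n : ℕ} (w : Fin n → Bool) : ip w w = n := by
  unfold ip
  simp [sg_mul_self]

lemma abs_ip_le {n : ℕ} (w w' : Fin n → Bool) : |ip w w'| ≤ n := by
  unfold ip
  refine (Finset.abs_sum_le_sum_abs _ _).trans ?_
  simp [abs_mul, abs_sg']

/-- entries of the Gram matrix -/
lemma gram_est {m n : ℕ} (hm : 0 < m) (hn : (n : ℝ) / m ≤ 1) (w w' : Fin n → Bool) :
    |(∑ ξ : Xi m n, tw w ξ * tw w' ξ) / cX m n - 4 / m * ip w w'| ≤ 4 * ((n : ℝ) / m) ^ 2 := by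
  rw [tw_gram hm]
  have hm' : (0 : ℝ) < m := by exact_mod_cast hm
  have h1 := prod_est' (n := n) (1 / (m : ℝ)) (by positivity) (by rw [mul_one_div]; exact hn)
    (fun j => sg (w j) * sg (w' j)) (fun j => by rw [abs_mul, abs_sg', abs_sg']; norm_num)
  have h2 := prod_est' (n := n) (1 / (m : ℝ)) (by positivity) (by rw [mul_one_div]; exact hn)
    (fun j => -(sg (w j) * sg (w' j))) (fun j => by rw [abs_neg, abs_mul, abs_sg', abs_sg']; norm_num)
  have e1 : ∀ j, 1 + 1 / (m : ℝ) * (sg (w j) * sg (w' j)) = 1 + sg (w j) * sg (w' j) / m :=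
    fun j => by ring
  have e2 : ∀ j, 1 + 1 / (m : ℝ) * -(sg (w j) * sg (w' j)) = 1 - sg (w j) * sg (w' j) / m :=
    fun j => by ring
  simp only [e1] at h1
  simp only [e2, Finset.sum_neg_distrib] at h2
  rw [mul_one_div] at h1 h2
  have e3 : ∑ j, sg (w j) * sg (w' j) = ip w w' := rfl
  rw [e3] at h1 h2
  rw [abs_le] at h1 h2 ⊢
  have e4 : 4 / (m : ℝ) * ip w w' = 4 * (1 / (m : ℝ) * ip w w') := by ring
  rw [e4]
  constructor <;> linarith [h1.1, h1.2, h2.1, h2.2]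

lemma Pw_var {m n : ℕ} (hm : 0 < m) (hn : (n : ℝ) / m ≤ 1) (w : Fin n → Bool) :
    (∑ ξ : Xi m n, (Pw w ξ - 1) ^ 2) / cX m n ≤ 2 * ((n : ℝ) / m) := by
  have hm' : (0 : ℝ) < m := by exact_mod_cast hm
  have e : ∀ ξ : Xi m n, (Pw w ξ - 1) ^ 2 = Pw w ξ * Pw w ξ - 2 * Pw w ξ + 1 := fun ξ => by ring
  simp only [e, Finset.sum_add_distrib, Finset.sum_sub_distrib, add_div, sub_div, Pw_gram hm,
    ← Finset.mul_sum, mul_div_assoc, Pw_mean hm, sum_one_Xi, div_self (cX_pos m n).ne']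
  simp only [← mul_div_assoc]
  have h1 := prod_est' (n := n) (1 / (m : ℝ)) (by positivity) (by rw [mul_one_div]; exact hn)
    (fun j => sg (w j) * sg (w j)) (fun j => by rw [abs_mul, abs_sg']; norm_num)
  have e1 : ∀ j, 1 + 1 / (m : ℝ) * (sg (w j) * sg (w j)) = 1 + sg (w j) * sg (w j) / m :=
    fun j => by ring
  simp only [e1] at h1
  have e3 : ∑ j, sg (w j) * sg (w j) = (n : ℝ) := ip_self w
  rw [e3, mul_one_div] at h1
  have h3 : 1 / (m : ℝ) * n = n / m := by ring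
  rw [h3] at h1
  have h2 := (abs_le.1 h1).2
  have h4 : (0 : ℝ) ≤ n / m := by positivity
  have h5 : 2 * (n : ℝ) / m = 2 * (n / m) := by ring
  rw [h5]
  nlinarith

/-- quadratic form of the Gram matrix -/
lemma gram_form {m n : ℕ} {ι : Type} [Fintype ι] (s : Finset ι) (W : ι → Fin n → Bool)
    (b : ι → ℝ) :
    (∑ ξ : Xi m n, (∑ i ∈ s, b i * tw (W i) ξ) ^ 2) / cX m n =
      ∑ i ∈ s, ∑ l ∈ s, b i * b l * ((∑ ξ : Xi m n, tw (W i) ξ * tw (W l) ξ) / cX m n) := by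
  have e : ∀ ξ : Xi m n, (∑ i ∈ s, b i * tw (W i) ξ) ^ 2 =
      ∑ i ∈ s, ∑ l ∈ s, b i * b l * (tw (W i) ξ * tw (W l) ξ) := by
    intro ξ
    rw [pow_two, Finset.sum_mul_sum]
    refine Finset.sum_congr rfl fun i _ => Finset.sum_congr rfl fun l _ => by ring
  simp only [e]
  rw [Finset.sum_comm, Finset.sum_div]
  refine Finset.sum_congr rfl fun i _ => ?_
  rw [Finset.sum_comm, Finset.sum_div]
  refine Finset.sum_congr rfl fun l _ => ?_
  rw [← Finset.mul_sum, mul_div_assoc]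

/-- comparison of the quadratic form with its main part -/
lemma form_est {m n : ℕ} (hm : 0 < m) (hn : (n : ℝ) / m ≤ 1) {ι : Type} [Fintype ι]
    (s : Finset ι) (W : ι → Fin n → Bool) (b : ι → ℝ) :
    (∑ ξ : Xi m n, (∑ i ∈ s, b i * tw (W i) ξ) ^ 2) / cX m n ≤
      4 / m * (∑ i ∈ s, ∑ l ∈ s, b i * b l * ip (W i) (W l)) +
        4 * ((n : ℝ) / m) ^ 2 * (s.card * ∑ i ∈ s, b i ^ 2) := by
  rw [gram_form]
  have h1 : ∀ i l, b i * b l * ((∑ ξ : Xi m n, tw (W i) ξ * tw (W l) ξ) / cX m n) ≤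
      4 / m * (b i * b l * ip (W i) (W l)) + 4 * ((n : ℝ) / m) ^ 2 * (|b i| * |b l|) := by
    intro i l
    have h := gram_est hm hn (W i) (W l)
    set g := (∑ ξ : Xi m n, tw (W i) ξ * tw (W l) ξ) / cX m n
    have e : b i * b l * g - 4 / m * (b i * b l * ip (W i) (W l)) =
        b i * b l * (g - 4 / m * ip (W i) (W l)) := by ring
    have h2 : b i * b l * (g - 4 / m * ip (W i) (W l)) ≤
        |b i| * |b l| * (4 * ((n : ℝ) / m) ^ 2) := by
      refine (le_abs_self _).trans ?_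
      rw [abs_mul, abs_mul]
      exact mul_le_mul_of_nonneg_left h (by positivity)
    linarith
  have h2 : ∑ i ∈ s, ∑ l ∈ s, |b i| * |b l| ≤ s.card * ∑ i ∈ s, b i ^ 2 := by
    rw [← Finset.sum_mul_sum, ← pow_two]
    have := sq_sum_le_card_mul_sum_sq (s := s) (f := fun i => |b i|)
    simpa using this
  calc ∑ i ∈ s, ∑ l ∈ s, b i * b l * ((∑ ξ : Xi m n, tw (W i) ξ * tw (W l) ξ) / cX m n)
      ≤ ∑ i ∈ s, ∑ l ∈ s, (4 / m * (b i * b l * ip (W i) (W l)) +
          4 * ((n : ℝ) / m) ^ 2 * (|b i| * |b l|)) :=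
        Finset.sum_le_sum fun i _ => Finset.sum_le_sum fun l _ => h1 i l
    _ = 4 / m * (∑ i ∈ s, ∑ l ∈ s, b i * b l * ip (W i) (W l)) +
          4 * ((n : ℝ) / m) ^ 2 * (∑ i ∈ s, ∑ l ∈ s, |b i| * |b l|) := by
        simp only [Finset.sum_add_distrib, Finset.mul_sum]
    _ ≤ _ := by
        have := mul_le_mul_of_nonneg_left h2 (by positivity : (0 : ℝ) ≤ 4 * ((n : ℝ) / m) ^ 2)
        linarith

/-- main part for the whole family -/
lemma ip_form {n : ℕ} {ι : Type} (s : Finset ι) (W : ι → Fin n → Bool) (b : ι → ℝ) :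
    ∑ i ∈ s, ∑ l ∈ s, b i * b l * ip (W i) (W l) = ∑ j, (∑ i ∈ s, b i * sg (W i j)) ^ 2 := by
  have e : ∀ j, (∑ i ∈ s, b i * sg (W i j)) ^ 2 =
      ∑ i ∈ s, ∑ l ∈ s, b i * b l * (sg (W i j) * sg (W l j)) := by
    intro j
    rw [pow_two, Finset.sum_mul_sum]
    refine Finset.sum_congr rfl fun i _ => Finset.sum_congr rfl fun l _ => by ring
  simp only [e]
  symm
  rw [Finset.sum_comm]
  refine Finset.sum_congr rfl fun i _ => ?_
  rw [Finset.sum_comm]
  refine Finset.sum_congr rfl fun l _ => ?_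
  rw [← Finset.mul_sum]
  rfl

/-- incoherent families -/
lemma ip_form_inc {n : ℕ} {ι : Type} (s : Finset ι) (W : ι → Fin n → Bool) (μ : ℝ) (hμ0 : 0 ≤ μ)
    (hμ : ∀ i ∈ s, ∀ l ∈ s, i ≠ l → |ip (W i) (W l)| ≤ μ * n) (b : ι → ℝ) :
    ∑ i ∈ s, ∑ l ∈ s, b i * b l * ip (W i) (W l) ≤
      n * (1 + s.card * μ) * ∑ i ∈ s, b i ^ 2 := by
  classical
  have h1 : ∀ i ∈ s, ∑ l ∈ s, b i * b l * ip (W i) (W l) ≤
      n * b i ^ 2 + μ * n * ∑ l ∈ s, |b i| * |b l| := by
    intro i hi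
    rw [← Finset.add_sum_erase s _ hi, ← Finset.add_sum_erase s (fun l => |b i| * |b l|) hi, ip_self]
    have h2 : ∑ l ∈ s.erase i, b i * b l * ip (W i) (W l) ≤
        ∑ l ∈ s.erase i, μ * n * (|b i| * |b l|) := by
      refine Finset.sum_le_sum fun l hl => ?_
      have hne := (Finset.ne_of_mem_erase hl).symm
      have := hμ i hi l (Finset.mem_of_mem_erase hl) hne
      refine (le_abs_self _).trans ?_
      rw [abs_mul, abs_mul, mul_comm (μ * n)]
      exact mul_le_mul_of_nonneg_left this (by positivity)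
    rw [← Finset.mul_sum] at h2
    have h3 : 0 ≤ μ * n * (|b i| * |b i|) := by positivity
    nlinarith
  have h2 : ∑ i ∈ s, ∑ l ∈ s, |b i| * |b l| ≤ s.card * ∑ i ∈ s, b i ^ 2 := by
    rw [← Finset.sum_mul_sum, ← pow_two]
    have := sq_sum_le_card_mul_sum_sq (s := s) (f := fun i => |b i|)
    simpa using this
  calc _ ≤ ∑ i ∈ s, (n * b i ^ 2 + μ * n * ∑ l ∈ s, |b i| * |b l|) := Finset.sum_le_sum h1
    _ = n * ∑ i ∈ s, b i ^ 2 + μ * n * ∑ i ∈ s, ∑ l ∈ s, |b i| * |b l| := by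
        rw [Finset.sum_add_distrib, ← Finset.mul_sum, ← Finset.mul_sum]
    _ ≤ _ := by
        have := mul_le_mul_of_nonneg_left h2 (by positivity : (0 : ℝ) ≤ μ * n)
        nlinarith

end Pool.Agent.W533.V
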