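import Mathlib

set_option autoImplicit false

/-!
Definitions and statements of the independent parts for the case `p > 2` of the problem on unions
of two isometrically `ℓ_p`-embeddable metric spaces.
-/

open Finset

namespace Pool.Agent.W533.V

/-- sign of a bit -/
def sg (b : Bool) : ℝ := if b then 1 else -1

/-- moments of sign sums (Khintchine) -/
def S_Khin : Prop := ∀ p : ℝ, 0 < p → ∃ K : ℝ, 0 < K ∧
  ∀ (β : Type) [Fintype β] [DecidableEq β] (c : β → ℝ),
    ∑ x : β → Bool, |∑ b, c b * sg (x b)| ^ p ≤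
      2 ^ Fintype.card β * (K * (∑ b, c b ^ 2) ^ (p / 2))

/-- signed power -/
noncomputable def Phi (q t : ℝ) : ℝ := t * |t| ^ (q - 1)

/-- comparison of a real path with its small and large increments -/
def S_Path : Prop := ∀ q : ℝ, 1 ≤ q → ∀ (T : ℕ) (u : ℕ → ℝ) (Lg : Finset ℕ),
  |u T - u 0| ≤ 3 * (∑ l ∈ range T \ Lg, |u (l + 1) - u l|) +
    2 * (∑ l ∈ range T ∩ Lg, |Phi q (u (l + 1)) - Phi q (u l)|) ^ (1 / q)

/-- mean value inequality for the signed power -/
def S_PhiLip : Prop := ∀ q : ℝ, 1 ≤ q → ∀ x y : ℝ,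
  |Phi q x - Phi q y| ≤ q * (max |x| |y|) ^ (q - 1) * |x - y|

open Classical in
/-- random sign matrices have small operator norm -/
def S_Net : Prop := ∀ n N : ℕ, 0 < n → n ≤ N →
  (((Finset.univ : Finset (Fin N × Fin n → Bool)).filter fun W =>
    ¬ ∀ b : Fin n → ℝ, ∑ i, (∑ j, sg (W (i, j)) * b j) ^ 2 ≤
      1000 * N * ∑ j, b j ^ 2).card : ℝ) ≤ 2 ^ (N * n) * Real.exp (-(N : ℝ))

open Classical in
/-- uniform law of large numbers for a finite family of bounded functions -/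
def S_Unif : Prop := ∀ (n N : ℕ) (H : Type) [Fintype H] (X : H → (Fin n → Bool) → ℝ) (B ε : ℝ),
  0 < B → 0 < ε → (∀ h w, 0 ≤ X h w ∧ X h w ≤ B) →
  (((Finset.univ : Finset (Fin N × Fin n → Bool)).filter fun W =>
    ∃ h, ε < |(∑ i, X h (fun j => W (i, j))) / N - (∑ w, X h w) / 2 ^ n|).card : ℝ) ≤
      2 ^ (N * n) * (2 * Fintype.card H * Real.exp (-(ε ^ 2 * N / (2 * B ^ 2))))

open Classical in
/-- incoherence of random sign vectors -/
def S_Inc : Prop := ∀ (n N : ℕ) (μ : ℝ), 0 ≤ μ →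
  (((Finset.univ : Finset (Fin N × Fin n → Bool)).filter fun W =>
    ∃ i l, i ≠ l ∧ μ * n < |∑ j, sg (W (i, j)) * sg (W (l, j))|).card : ℝ) ≤
      2 ^ (N * n) * (2 * N ^ 2 * Real.exp (-(μ ^ 2 * n / 2)))

end Pool.Agent.W533.V
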