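import Pool.Agent.W533.V.Met

set_option autoImplicit false
set_option linter.unusedSectionVars false
set_option linter.unusedSimpArgs false

/-!
Estimates for the metrics.
-/

open Finset Real

namespace Pool.Agent.W533.V

open Pool.Agent.W533.U (ellp sgz sgz_cast)

/-- Khintchine constant -/
def KhinC (p K : ℝ) : Prop := 0 < K ∧ ∀ (β : Type) [Fintype β] [DecidableEq β] (c : β → ℝ),
    ∑ x : β → Bool, |∑ b, c b * sg (x b)| ^ p ≤
      2 ^ Fintype.card β * (K * (∑ b, c b ^ 2) ^ (p / 2))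

lemma exists_KhinC {p : ℝ} (hp : 0 < p) : ∃ K, KhinC p K := Pool.Agent.W347.UP.khin p hp

variable {n : ℕ} (M : ℕ) [NeZero M]

lemma sum_Yv (w : Fin n → Bool) {m : ℕ} (ξ : Xi m n) :
    ((∑ j, sgz (w j) * Yv ξ j : ℤ) : ℝ) = ∑ b : Fin m × Fin n, sg (w b.2) * sg (ξ b.1 b.2) := by
  rw [Fintype.sum_prod_type_right]
  unfold Yv
  push_cast
  refine Finset.sum_congr rfl fun j _ => ?_
  rw [Finset.mul_sum]
  refine Finset.sum_congr rfl fun k _ => ?_
  rw [sgz_castV, sgz_castV]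

lemma avg_Psi {p K : ℝ} (hp : 0 < p) (hK : KhinC p K) (w : Fin n → Bool) (m : ℕ) :
    (∑ ξ : Xi m n, Psi M p (pr M w (cst M (Yv ξ)))) / cX m n ≤
      (2 * π / M) ^ p * (K * ((m : ℝ) * n) ^ (p / 2)) := by
  have hM := Mpos M
  have hC := cX_pos m n
  rw [div_le_iff₀ hC]
  have h1 : ∀ ξ : Xi m n, Psi M p (pr M w (cst M (Yv ξ))) ≤
      (2 * π / M) ^ p * |∑ b : Fin m × Fin n, sg (w b.2) * sg (ξ b.1 b.2)| ^ p := by
    intro ξ
    rw [pr_cst, ← sum_Yv]
    exact Psi_int_le M hp.le _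
  refine (Finset.sum_le_sum fun ξ _ => h1 ξ).trans ?_
  rw [← Finset.mul_sum, mul_assoc]
  refine mul_le_mul_of_nonneg_left ?_ (by positivity)
  have h2 := hK.2 (Fin m × Fin n) (fun b => sg (w b.2))
  have h3 : ∑ x : Fin m × Fin n → Bool, |∑ b : Fin m × Fin n, sg (w b.2) * sg (x b)| ^ p =
      ∑ ξ : Xi m n, |∑ b : Fin m × Fin n, sg (w b.2) * sg (ξ b.1 b.2)| ^ p := by
    rw [← Equiv.sum_comp (Equiv.curry (Fin m) (Fin n) Bool)]
    rfl
  rw [h3] at h2
  refine h2.trans (le_of_eq ?_)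
  have h4 : ∑ b : Fin m × Fin n, sg (w b.2) ^ 2 = (m : ℝ) * n := by
    have : ∀ b : Fin m × Fin n, sg (w b.2) ^ 2 = 1 := fun b => by rw [pow_two, sg_mul_self]
    simp [this]
  have h5 : (2 : ℝ) ^ Fintype.card (Fin m × Fin n) = cX m n := by
    unfold cX
    rw [← pow_mul, mul_comm]
    simp
  rw [h4, h5]
  ring

variable {I : Type} [Fintype I] [Nonempty I]

lemma avg_PI {p K : ℝ} (hp : 0 < p) (hK : KhinC p K) {eps : ℝ} (he : 0 ≤ eps)
    (W : I → Fin n → Bool) (m : ℕ) :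
    (∑ ξ : Xi m n, PI M p eps W (cst M (Yv ξ))) / cX m n ≤
      (2 * π / M) ^ p * (K * ((m : ℝ) * n) ^ (p / 2)) + 2 * eps := by
  have hI : (0 : ℝ) < Fintype.card I := by exact_mod_cast Fintype.card_pos
  have hC := cX_pos m n
  have h1 : ∀ ξ : Xi m n, PI M p eps W (cst M (Yv ξ)) ≤
      (∑ i, Psi M p (pr M (W i) (cst M (Yv ξ)))) / Fintype.card I + 2 * eps := by
    intro ξ
    unfold PI
    split_ifs <;> linarith
  have h2 : (∑ ξ : Xi m n, PI M p eps W (cst M (Yv ξ))) / cX m n ≤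
      (∑ ξ : Xi m n, ((∑ i, Psi M p (pr M (W i) (cst M (Yv ξ)))) / Fintype.card I + 2 * eps)) /
        cX m n := div_le_div_of_nonneg_right (Finset.sum_le_sum fun ξ _ => h1 ξ) hC.le
  refine h2.trans ?_
  rw [Finset.sum_add_distrib, add_div]
  refine add_le_add ?_ (le_of_eq ?_)
  · rw [← Finset.sum_div, Finset.sum_comm, div_div, mul_comm (Fintype.card I : ℝ), ← div_div,
      Finset.sum_div, div_le_iff₀ hI]
    refine (Finset.sum_le_sum fun i _ => avg_Psi M hp hK (W i) m).trans (le_of_eq ?_)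
    rw [Finset.sum_const, Finset.card_univ, nsmul_eq_mul, mul_comm]
  · rw [Finset.sum_const, Finset.card_univ, nsmul_eq_mul]
    have h3 : ((Fintype.card (Xi m n) : ℕ) : ℝ) = cX m n := by
      rw [← sum_one_Xi m n]; simp
    rw [h3, mul_comm, mul_div_assoc, div_self hC.ne', mul_one]

/-- pairing of multiples of sign vectors -/
lemma pr_smul (w w' : Fin n → Bool) (T : ℕ) :
    pr M w ((2 * T) • cst M (sv w')) = ((2 * T * ∑ j, sgz (w j) * sgz (w' j) : ℤ) : ZMod M) := by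
  rw [← map_nsmul, pr_cst]
  congr 1
  rw [Finset.mul_sum]
  refine Finset.sum_congr rfl fun j _ => ?_
  simp only [Pi.smul_apply, sv, smul_eq_mul, nsmul_eq_mul]
  push_cast
  ring

/-- lower bound at the special translations -/
lemma PI_ge {p : ℝ} (hp : 2 < p) {eps : ℝ} (he : 0 ≤ eps) (W : I → Fin n → Bool) (i : I) (T : ℕ)
    (hM : M = 4 * (T * n)) :
    2 ^ (p / 2) / Fintype.card I ≤ PI M p eps W ((2 * T) • cst M (sv (W i))) := by
  have hI : (0 : ℝ) < Fintype.card I := by exact_mod_cast Fintype.card_pos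
  unfold PI
  have h1 : Psi M p (pr M (W i) ((2 * T) • cst M (sv (W i)))) ≤
      ∑ l, Psi M p (pr M (W l) ((2 * T) • cst M (sv (W i)))) :=
    Finset.single_le_sum (f := fun l => Psi M p (pr M (W l) ((2 * T) • cst M (sv (W i)))))
      (fun l _ => Psi_nonneg _ _ _) (Finset.mem_univ i)
  have h2 : (2 : ℝ) ^ (p / 2) ≤ Psi M p (pr M (W i) ((2 * T) • cst M (sv (W i)))) := by
    rw [pr_smul]
    have h3 : ∑ j, sgz (W i j) * sgz (W i j) = (n : ℤ) := by
      have : ∀ j, sgz (W i j) * sgz (W i j) = 1 := by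
        intro j
        cases W i j <;> simp [sgz]
      simp [this]
    rw [h3]
    have h4 := Psi_half M hp (L := T * n) hM
    refine h4.trans (le_of_eq ?_)
    congr 1
    push_cast
    ring
  have h3 : (2 : ℝ) ^ (p / 2) / Fintype.card I ≤
      (∑ l, Psi M p (pr M (W l) ((2 * T) • cst M (sv (W i))))) / Fintype.card I :=
    div_le_div_of_nonneg_right (h2.trans h1) hI.le
  refine h3.trans ?_
  split_ifs <;> linarith

/-- upper bound at the special translations, for the average over all sign vectors -/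
lemma PI_all_le {p K : ℝ} (hp : 0 < p) (hK : KhinC p K) {eps : ℝ} (he : 0 ≤ eps)
    (w' : Fin n → Bool) (T : ℕ) (hT : 0 < T) (hn : 0 < n) (hM : M = 4 * (T * n)) :
    PI M p eps (fun w : Fin n → Bool => w) ((2 * T) • cst M (sv w')) ≤
      (π / n) ^ p * (K * (n : ℝ) ^ (p / 2)) + 2 * eps := by
  have hn' : (0 : ℝ) < n := by exact_mod_cast hn
  have hT' : (0 : ℝ) < T := by exact_mod_cast hT
  have hcard : ((Fintype.card (Fin n → Bool) : ℕ) : ℝ) = 2 ^ n := by simp
  have h1 : ∀ w : Fin n → Bool, Psi M p (pr M w ((2 * T) • cst M (sv w'))) ≤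
      (π / n) ^ p * |∑ j, sg (w' j) * sg (w j)| ^ p := by
    intro w
    rw [pr_smul]
    refine (Psi_int_le M hp.le _).trans (le_of_eq ?_)
    rw [← Real.mul_rpow (by positivity) (abs_nonneg _),
      ← Real.mul_rpow (by positivity) (abs_nonneg _)]
    congr 1
    push_cast
    simp only [sgz_castV]
    have e1 : ∑ j, sg (w j) * sg (w' j) = ∑ j, sg (w' j) * sg (w j) :=
      Finset.sum_congr rfl fun j _ => mul_comm _ _
    rw [e1, abs_mul, abs_of_pos (by positivity : (0 : ℝ) < 2 * T)]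
    have hM' : (M : ℝ) = 4 * (T * n) := by exact_mod_cast hM
    rw [hM']
    field_simp
    norm_num
  unfold PI
  have h2 : (∑ w : Fin n → Bool, Psi M p (pr M w ((2 * T) • cst M (sv w')))) /
      (Fintype.card (Fin n → Bool) : ℝ) ≤ (π / n) ^ p * (K * (n : ℝ) ^ (p / 2)) := by
    rw [hcard, div_le_iff₀ (by positivity)]
    refine (Finset.sum_le_sum fun w _ => h1 w).trans ?_
    rw [← Finset.mul_sum, mul_assoc]
    refine mul_le_mul_of_nonneg_left ?_ (by positivity)
    have h3 := hK.2 (Fin n) (fun j => sg (w' j))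
    refine h3.trans (le_of_eq ?_)
    have h4 : ∑ j, sg (w' j) ^ 2 = (n : ℝ) := by
      have : ∀ j, sg (w' j) ^ 2 = 1 := fun b => by rw [pow_two, sg_mul_self]
      simp [this]
    rw [h4]
    simp
    ring
  refine add_le_add h2 ?_
  split_ifs <;> linarith

end Pool.Agent.W533.V
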