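import Pool.Agent.W533.V.Bessel

set_option autoImplicit false
set_option linter.unusedSectionVars false
set_option linter.unusedSimpArgs false

/-!
Increments of the smoothed function.
-/

open Finset

namespace Pool.Agent.W533.V

section

variable {G : Type} [AddCommGroup G] {n : ℕ}

/-- smoothing with `r` rows -/
noncomputable def Usm (r : ℕ) (c : (Fin n → ℤ) →+ G) (v : G → ℝ) (z : G) : ℝ :=
  (∑ ξ : Xi r n, v (z + c (Yv ξ))) / cX r n

/-- mean square of the increments -/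
noncomputable def V2 (m : ℕ) (c : (Fin n → ℤ) →+ G) (v : G → ℝ) (z : G) : ℝ :=
  (∑ ξ : Xi m n, (v (z + c (Yv ξ)) - v z) ^ 2) / cX m n

lemma V2_nonneg (m : ℕ) (c : (Fin n → ℤ) →+ G) (v : G → ℝ) (z : G) : 0 ≤ V2 m c v z :=
  div_nonneg (Finset.sum_nonneg fun _ _ => sq_nonneg _) (cX_pos _ _).le

lemma Usm_tilt (r : ℕ) (c : (Fin n → ℤ) →+ G) (v : G → ℝ) (z : G) (w : Fin n → Bool) :
    Usm r c v (z + c (sv w)) =
      (∑ ξ : Xi (r + 1) n, v (z + c (Yv ξ)) * Pw w ξ) / cX (r + 1) n := by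
  rw [Pw_sum (fun Y => v (z + c Y)) w]
  unfold Usm
  congr 1
  refine Finset.sum_congr rfl fun ξ _ => ?_
  rw [map_add, add_assoc]

lemma Usm_opp (r : ℕ) (c : (Fin n → ℤ) →+ G) (v : G → ℝ) (z : G) (w : Fin n → Bool) :
    Usm r c v (z - c (sv w)) = Usm r c v (z + c (sv (opp w))) := by
  rw [sv_opp, map_neg, sub_eq_add_neg]

/-- central increment of the smoothed function -/
noncomputable def inc (r : ℕ) (c : (Fin n → ℤ) →+ G) (v : G → ℝ) (w : Fin n → Bool) (z : G) : ℝ :=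
  Usm r c v (z + c (sv w)) - Usm r c v (z - c (sv w))

lemma inc_eq (r : ℕ) (c : (Fin n → ℤ) →+ G) (v : G → ℝ) (w : Fin n → Bool) (z : G) :
    inc r c v w z =
      (∑ ξ : Xi (r + 1) n, (v (z + c (Yv ξ)) - v z) * tw w ξ) / cX (r + 1) n := by
  unfold inc
  rw [Usm_opp, Usm_tilt, Usm_tilt, ← sub_div, ← Finset.sum_sub_distrib]
  have h := tw_mean (m := r + 1) (n := n) (Nat.succ_pos r) w
  have e : ∀ ξ : Xi (r + 1) n, (v (z + c (Yv ξ)) - v z) * tw w ξ =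
      (v (z + c (Yv ξ)) * Pw w ξ - v (z + c (Yv ξ)) * Pw (opp w) ξ) - v z * tw w ξ := by
    intro ξ; unfold tw; ring
  simp only [e]
  have e2 := Finset.sum_sub_distrib (s := (Finset.univ : Finset (Xi (r + 1) n)))
    (fun ξ => v (z + c (Yv ξ)) * Pw w ξ - v (z + c (Yv ξ)) * Pw (opp w) ξ)
    (fun ξ => v z * tw w ξ)
  rw [e2, sub_div, ← Finset.mul_sum, mul_div_assoc (v z), h, mul_zero, sub_zero]

lemma Usm_sub_F (r : ℕ) (c : (Fin n → ℤ) →+ G) (v : G → ℝ) (w : Fin n → Bool) (z : G) :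
    Usm r c v (z + c (sv w)) - Usm (r + 1) c v z =
      (∑ ξ : Xi (r + 1) n, (v (z + c (Yv ξ)) - v z) * (Pw w ξ - 1)) / cX (r + 1) n := by
  rw [Usm_tilt]
  unfold Usm
  rw [← sub_div, ← Finset.sum_sub_distrib]
  have h := Pw_mean (m := r + 1) (n := n) (Nat.succ_pos r) w
  have h1 : (∑ ξ : Xi (r + 1) n, (Pw w ξ - 1)) / cX (r + 1) n = 0 := by
    rw [Finset.sum_sub_distrib, sub_div, h, sum_one_Xi, div_self (cX_pos _ _).ne', sub_self]
  have e : ∀ ξ : Xi (r + 1) n, (v (z + c (Yv ξ)) - v z) * (Pw w ξ - 1) =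
      (v (z + c (Yv ξ)) * Pw w ξ - v (z + c (Yv ξ))) - v z * (Pw w ξ - 1) := by
    intro ξ; ring
  simp only [e]
  rw [Finset.sum_sub_distrib (f := fun ξ => v (z + c (Yv ξ)) * Pw w ξ - v (z + c (Yv ξ))),
    sub_div, ← Finset.mul_sum, mul_div_assoc (v z), h1, mul_zero, sub_zero]

/-- Bessel inequality for the increments -/
lemma inc_bessel (r : ℕ) (c : (Fin n → ℤ) →+ G) (v : G → ℝ) {ι : Type} [Fintype ι]
    (W : ι → Fin n → Bool) (s : Finset ι) (Q : ℝ) (hQ0 : 0 ≤ Q)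
    (hQ : ∀ b : ι → ℝ, (∑ ξ : Xi (r + 1) n, (∑ i ∈ s, b i * tw (W i) ξ) ^ 2) / cX (r + 1) n ≤
      Q * ∑ i ∈ s, b i ^ 2) (z : G) :
    ∑ i ∈ s, inc r c v (W i) z ^ 2 ≤ Q * V2 (r + 1) c v z := by
  have hC := cX_pos (r + 1) n
  have h := bessel s (fun i ξ => tw (W i) ξ) (fun ξ : Xi (r + 1) n => v (z + c (Yv ξ)) - v z)
    (Q * cX (r + 1) n) (by positivity) (fun b => by
      have := hQ b
      rw [div_le_iff₀ hC] at this
      linarith)
  simp only [inc_eq, div_pow]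
  rw [← Finset.sum_div, div_le_iff₀ (by positivity)]
  refine h.trans (le_of_eq ?_)
  unfold V2
  field_simp

variable {N : ℕ}

/-- hypotheses on the family of sign vectors -/
structure Good (n N m : ℕ) (W : Fin N → Fin n → Bool) (μ : ℝ) : Prop where
  hn : 0 < n
  hm : 0 < m
  nm : (n : ℝ) / m ≤ 1 / 8
  n2m : (n : ℝ) ^ 2 / m ≤ 1
  mu0 : 0 ≤ μ
  net : ∀ b : Fin n → ℝ, ∑ i, (∑ j, sg (W i j) * b j) ^ 2 ≤ 1000 * N * ∑ j, b j ^ 2
  inco : ∀ i l, i ≠ l → |ip (W i) (W l)| ≤ μ * n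

lemma Good.dual {m : ℕ} {W : Fin N → Fin n → Bool} {μ : ℝ} (g : Good n N m W μ)
    (b : Fin N → ℝ) : ∑ j, (∑ i, b i * sg (W i j)) ^ 2 ≤ 1000 * N * ∑ i, b i ^ 2 := by
  have := bessel (Finset.univ : Finset (Fin n)) (fun j i => sg (W i j)) b (1000 * N)
    (by positivity) (fun c => by
      refine le_trans (le_of_eq ?_) (g.net c)
      refine Finset.sum_congr rfl fun i _ => ?_
      congr 1
      exact Finset.sum_congr rfl fun j _ => mul_comm _ _)
  exact this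

/-- all increments -/
lemma Good.all {r : ℕ} {W : Fin N → Fin n → Bool} {μ : ℝ} (g : Good n N (r + 1) W μ)
    (c : (Fin n → ℤ) →+ G) (v : G → ℝ) (z : G) :
    ∑ i, inc r c v (W i) z ^ 2 ≤
      1000 * N / n * (5 * n / ((r + 1 : ℕ) : ℝ) * V2 (r + 1) c v z) := by
  have hn : (0 : ℝ) < n := by exact_mod_cast g.hn
  have hm : (0 : ℝ) < ((r + 1 : ℕ) : ℝ) := by positivity
  set m : ℝ := ((r + 1 : ℕ) : ℝ) with hm'
  have h := inc_bessel r c v W Finset.univ (4004 * N / m) (by positivity) (fun b => by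
    refine (form_est g.hm (g.nm.trans (by norm_num)) Finset.univ W b).trans ?_
    rw [ip_form]
    have h1 := g.dual b
    have hb : 0 ≤ ∑ i, b i ^ 2 := Finset.sum_nonneg fun _ _ => sq_nonneg _
    have h2 : 4 / m * (∑ j, (∑ i, b i * sg (W i j)) ^ 2) ≤ 4 / m * (1000 * N * ∑ i, b i ^ 2) :=
      mul_le_mul_of_nonneg_left h1 (by positivity)
    have h3 : (n / m) ^ 2 ≤ 1 / m := by
      have := g.n2m
      rw [div_pow, pow_two m, ← div_div]
      exact div_le_div_of_nonneg_right this hm.le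
    have hN : (((Finset.univ : Finset (Fin N)).card : ℕ) : ℝ) = N := by simp
    rw [hN]
    have h4 : 4 * (n / m) ^ 2 * (N * ∑ i, b i ^ 2) ≤ 4 * (1 / m) * (N * ∑ i, b i ^ 2) := by
      refine mul_le_mul_of_nonneg_right ?_ (by positivity)
      linarith
    calc _ ≤ 4 / m * (1000 * N * ∑ i, b i ^ 2) + 4 * (1 / m) * (N * ∑ i, b i ^ 2) :=
          add_le_add h2 h4
      _ = _ := by field_simp; ring) z
  refine h.trans ?_
  have hV := V2_nonneg (r + 1) c v z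
  have : 1000 * N / n * (5 * n / m * V2 (r + 1) c v z) = 5000 * N / m * V2 (r + 1) c v z := by
    field_simp; ring
  rw [this]
  refine mul_le_mul_of_nonneg_right ?_ hV
  refine div_le_div_of_nonneg_right ?_ hm.le
  have : (0 : ℝ) ≤ N := by positivity
  nlinarith

/-- few increments -/
lemma Good.few {r : ℕ} {W : Fin N → Fin n → Bool} {μ : ℝ} (g : Good n N (r + 1) W μ)
    (s : Finset (Fin N)) (hs : s.card * (μ + n / ((r + 1 : ℕ) : ℝ)) ≤ 1 / 8)
    (c : (Fin n → ℤ) →+ G) (v : G → ℝ) (z : G) :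
    ∑ i ∈ s, inc r c v (W i) z ^ 2 ≤ 5 * n / ((r + 1 : ℕ) : ℝ) * V2 (r + 1) c v z := by
  have hn : (0 : ℝ) < n := by exact_mod_cast g.hn
  have hm : (0 : ℝ) < ((r + 1 : ℕ) : ℝ) := by positivity
  have hnm := g.nm
  have hmu := g.mu0
  set m : ℝ := ((r + 1 : ℕ) : ℝ) with hm'
  refine inc_bessel r c v W s (5 * n / m) (by positivity) (fun b => ?_) z
  refine (form_est g.hm (g.nm.trans (by norm_num)) s W b).trans ?_
  have h1 := ip_form_inc s W μ g.mu0 (fun i _ l _ h => g.inco i l h) b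
  have hb : 0 ≤ ∑ i ∈ s, b i ^ 2 := Finset.sum_nonneg fun _ _ => sq_nonneg _
  have h2 := mul_le_mul_of_nonneg_left h1 (by positivity : 0 ≤ 4 / m)
  have h3 : 4 / m * (n * (1 + s.card * μ) * ∑ i ∈ s, b i ^ 2) +
      4 * (n / m) ^ 2 * (s.card * ∑ i ∈ s, b i ^ 2) =
      4 * (n / m) * (1 + s.card * (μ + n / m)) * ∑ i ∈ s, b i ^ 2 := by
    field_simp
    ring
  refine (add_le_add h2 le_rfl).trans (h3.le.trans ?_)
  refine mul_le_mul_of_nonneg_right ?_ hb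
  have h4 : 0 ≤ (n : ℝ) / m := by positivity
  have h5 : 5 * (n : ℝ) / m = 5 * (n / m) := by ring
  rw [h5]
  nlinarith

/-- the smoothed values are close to the doubly smoothed ones -/
lemma Good.near {r : ℕ} {W : Fin N → Fin n → Bool} {μ : ℝ} (g : Good n N (r + 1) W μ)
    (w : Fin n → Bool) (c : (Fin n → ℤ) →+ G) (v : G → ℝ) (z : G) :
    (Usm r c v (z + c (sv w)) - Usm (r + 1) c v z) ^ 2 ≤
      5 * n / ((r + 1 : ℕ) : ℝ) * V2 (r + 1) c v z := by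
  have hC := cX_pos (r + 1) n
  have h1 := Pw_var (m := r + 1) g.hm (g.nm.trans (by norm_num)) w
  rw [Usm_sub_F, div_pow]
  have h2 := Finset.sum_mul_sq_le_sq_mul_sq (Finset.univ : Finset (Xi (r + 1) n))
    (fun ξ => v (z + c (Yv ξ)) - v z) (fun ξ => Pw w ξ - 1)
  have hV := V2_nonneg (r + 1) c v z
  have h3 : (∑ ξ : Xi (r + 1) n, (v (z + c (Yv ξ)) - v z) * (Pw w ξ - 1)) ^ 2 /
      cX (r + 1) n ^ 2 ≤ V2 (r + 1) c v z *
        ((∑ ξ : Xi (r + 1) n, (Pw w ξ - 1) ^ 2) / cX (r + 1) n) := by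
    unfold V2
    rw [div_mul_div_comm, ← pow_two]
    exact div_le_div_of_nonneg_right h2 (by positivity)
  refine h3.trans ?_
  have h4 : 0 ≤ (n : ℝ) / ((r + 1 : ℕ) : ℝ) := by positivity
  have h5 : 5 * (n : ℝ) / ((r + 1 : ℕ) : ℝ) = 5 * (n / ((r + 1 : ℕ) : ℝ)) := by ring
  rw [h5]
  calc _ ≤ V2 (r + 1) c v z * (2 * ((n : ℝ) / ((r + 1 : ℕ) : ℝ))) :=
        mul_le_mul_of_nonneg_left h1 hV
    _ ≤ _ := by nlinarith [mul_nonneg hV h4]

lemma Good.near' {r : ℕ} {W : Fin N → Fin n → Bool} {μ : ℝ} (g : Good n N (r + 1) W μ)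
    (w : Fin n → Bool) (c : (Fin n → ℤ) →+ G) (v : G → ℝ) (z : G) :
    (Usm r c v (z - c (sv w)) - Usm (r + 1) c v z) ^ 2 ≤
      5 * n / ((r + 1 : ℕ) : ℝ) * V2 (r + 1) c v z := by
  rw [Usm_opp]
  exact g.near (opp w) c v z

/-- the scale `r(z)` -/
noncomputable def rr (r : ℕ) (c : (Fin n → ℤ) →+ G) (v : G → ℝ) (z : G) : ℝ :=
  √(5 * n / ((r + 1 : ℕ) : ℝ) * V2 (r + 1) c v z)

lemma rr_nonneg (r : ℕ) (c : (Fin n → ℤ) →+ G) (v : G → ℝ) (z : G) : 0 ≤ rr r c v z :=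
  Real.sqrt_nonneg _

lemma rr_sq (r : ℕ) (c : (Fin n → ℤ) →+ G) (v : G → ℝ) (z : G) :
    rr r c v z ^ 2 = 5 * n / ((r + 1 : ℕ) : ℝ) * V2 (r + 1) c v z := by
  unfold rr
  refine Real.sq_sqrt ?_
  have := V2_nonneg (r + 1) c v z
  positivity

/-- indices with large increment -/
noncomputable def Big (r : ℕ) (c : (Fin n → ℤ) →+ G) (v : G → ℝ) (W : Fin N → Fin n → Bool) (η : ℝ)
    (z : G) : Finset (Fin N) :=
  Finset.univ.filter fun i => η * rr r c v z < |inc r c v (W i) z|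

lemma Good.big {r : ℕ} {W : Fin N → Fin n → Bool} {μ : ℝ} (g : Good n N (r + 1) W μ)
    (c : (Fin n → ℤ) →+ G) (v : G → ℝ) (z : G) {η : ℝ} (hη : 0 < η) (k0 : ℕ)
    (hk : (k0 : ℝ) * (μ + n / ((r + 1 : ℕ) : ℝ)) ≤ 1 / 8) (hk1 : 1 ≤ k0 * η ^ 2) :
    ∑ i ∈ Big r c v W η z, inc r c v (W i) z ^ 2 ≤ rr r c v z ^ 2 := by
  have hmu := g.mu0
  have hk0 : 0 < k0 := by
    rcases Nat.eq_zero_or_pos k0 with h | h
    · rw [h] at hk1; norm_num at hk1
    · exact h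
  by_cases hc : (Big r c v W η z).card ≤ k0
  · rw [rr_sq]
    refine g.few _ (le_trans ?_ hk) c v z
    refine mul_le_mul_of_nonneg_right (by exact_mod_cast hc) (by positivity)
  · exfalso
    push Not at hc
    obtain ⟨s, hs, hsc⟩ := Finset.exists_subset_card_eq hc.le
    have h1 := g.few s (by rw [hsc]; exact hk) c v z
    rw [← rr_sq] at h1
    have hr := rr_nonneg r c v z
    have h2 : ∑ _i ∈ s, (η * rr r c v z) ^ 2 < ∑ i ∈ s, inc r c v (W i) z ^ 2 := by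
      refine Finset.sum_lt_sum_of_nonempty (Finset.card_pos.1 (by omega)) fun i hi => ?_
      have := (Finset.mem_filter.1 (hs hi)).2
      rw [← sq_abs (inc r c v (W i) z)]
      exact pow_lt_pow_left₀ this (by positivity) (by norm_num)
    rw [Finset.sum_const, hsc, nsmul_eq_mul] at h2
    have h3 : rr r c v z ^ 2 ≤ k0 * (η * rr r c v z) ^ 2 := by
      have : k0 * (η * rr r c v z) ^ 2 = (k0 * η ^ 2) * rr r c v z ^ 2 := by ring
      rw [this]
      nlinarith [sq_nonneg (rr r c v z)]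
    linarith

lemma Good.inc_le {r : ℕ} {W : Fin N → Fin n → Bool} {μ : ℝ} (g : Good n N (r + 1) W μ)
    (hμ : μ + n / ((r + 1 : ℕ) : ℝ) ≤ 1 / 8)
    (c : (Fin n → ℤ) →+ G) (v : G → ℝ) (z : G) (i : Fin N) :
    |inc r c v (W i) z| ≤ rr r c v z := by
  have h := g.few {i} (by simpa using hμ) c v z
  rw [Finset.sum_singleton, ← rr_sq] at h
  exact abs_le_of_sq_le_sq h (rr_nonneg r c v z)

end

end Pool.Agent.W533.V
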