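import Pool.Agent.W533.V.Path2
import Pool.Agent.W533.U.LpIneq

set_option autoImplicit false
set_option linter.unusedSectionVars false
set_option linter.unusedSimpArgs false

/-!
The main inequality for one coordinate.
-/

open Finset

namespace Pool.Agent.W533.V

/-- power mean inequality for averages -/
lemma avg_rpow_le {κ : Type} [Fintype κ] {C : ℝ} (hC : 0 < C) (h1 : ∑ _x : κ, (1 : ℝ) = C)
    {s : ℝ} (hs : 1 ≤ s) (f : κ → ℝ) (hf : ∀ x, 0 ≤ f x) :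
    ((∑ x, f x) / C) ^ s ≤ (∑ x, f x ^ s) / C := by
  have h := Real.rpow_arith_mean_le_arith_mean_rpow (Finset.univ : Finset κ) (fun _ => 1 / C) f
    (fun _ _ => by positivity) (by
      rw [← Finset.sum_div, h1, div_self hC.ne']) (fun x _ => hf x) hs
  rw [← Finset.mul_sum, ← Finset.mul_sum] at h
  rw [div_eq_inv_mul, div_eq_inv_mul, ← one_div]
  exact h

section

variable {G : Type} [AddCommGroup G] [Fintype G] {n : ℕ}

/-- mean of the increments of order `p` -/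
noncomputable def Ep (p : ℝ) (m : ℕ) (c : (Fin n → ℤ) →+ G) (v : G → ℝ) (z : G) : ℝ :=
  (∑ ξ : Xi m n, |v (z + c (Yv ξ)) - v z| ^ p) / cX m n

lemma Ep_nonneg (p : ℝ) (m : ℕ) (c : (Fin n → ℤ) →+ G) (v : G → ℝ) (z : G) : 0 ≤ Ep p m c v z :=
  div_nonneg (Finset.sum_nonneg fun _ _ => by positivity) (cX_pos _ _).le

lemma V2_rpow_le {p : ℝ} (hp : 2 < p) (m : ℕ) (c : (Fin n → ℤ) →+ G) (v : G → ℝ) (z : G) :
    V2 m c v z ^ (p / 2) ≤ Ep p m c v z := by
  unfold V2 Ep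
  refine (avg_rpow_le (cX_pos m n) (sum_one_Xi m n) (by linarith : 1 ≤ p / 2) _
    (fun _ => sq_nonneg _)).trans (le_of_eq ?_)
  congr 1
  refine Finset.sum_congr rfl fun ξ _ => ?_
  rw [← sq_abs, ← Real.rpow_natCast, ← Real.rpow_mul (abs_nonneg _)]
  congr 1
  push_cast
  ring

lemma rr_rpow_le {p : ℝ} (hp : 2 < p) (r : ℕ) (c : (Fin n → ℤ) →+ G) (v : G → ℝ) (z : G) :
    rr r c v z ^ p ≤ (5 * n / ((r + 1 : ℕ) : ℝ)) ^ (p / 2) * Ep p (r + 1) c v z := by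
  have hV := V2_nonneg (r + 1) c v z
  have h1 : rr r c v z ^ p = (5 * n / ((r + 1 : ℕ) : ℝ) * V2 (r + 1) c v z) ^ (p / 2) := by
    rw [← rr_sq, ← Real.rpow_natCast, ← Real.rpow_mul (rr_nonneg r c v z)]
    congr 1
    push_cast
    ring
  rw [h1, Real.mul_rpow (by positivity) hV]
  exact mul_le_mul_of_nonneg_left (V2_rpow_le hp _ _ _ _) (by positivity)

lemma Usm_rpow_le {p : ℝ} (hp : 1 ≤ p) (m : ℕ) (c : (Fin n → ℤ) →+ G) (v : G → ℝ) :
    ∑ z, |Usm m c v z| ^ p ≤ ∑ z, |v z| ^ p := by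
  have h1 : ∀ z, |Usm m c v z| ^ p ≤ (∑ ξ : Xi m n, |v (z + c (Yv ξ))| ^ p) / cX m n := by
    intro z
    refine le_trans (Real.rpow_le_rpow (abs_nonneg _) ?_ (by linarith))
      (avg_rpow_le (cX_pos m n) (sum_one_Xi m n) hp _ (fun _ => abs_nonneg _))
    unfold Usm
    rw [abs_div, abs_of_pos (cX_pos m n)]
    exact div_le_div_of_nonneg_right (Finset.abs_sum_le_sum_abs _ _) (cX_pos m n).le
  refine (Finset.sum_le_sum fun z _ => h1 z).trans (le_of_eq ?_)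
  rw [← Finset.sum_div, Finset.sum_comm]
  have h2 : ∀ ξ : Xi m n, ∑ z, |v (z + c (Yv ξ))| ^ p = ∑ z, |v z| ^ p := fun ξ =>
    Equiv.sum_comp (Equiv.addRight (c (Yv ξ))) (fun z => |v z| ^ p)
  simp only [h2]
  rw [Finset.sum_const, Finset.card_univ, nsmul_eq_mul]
  have h3 : ((Fintype.card (Xi m n) : ℕ) : ℝ) = cX m n := by
    rw [← sum_one_Xi m n]; simp
  rw [h3, mul_comm, mul_div_assoc, div_self (cX_pos m n).ne', mul_one]

lemma Usm_sub_rpow_le {p : ℝ} (hp : 1 ≤ p) (m : ℕ) (c : (Fin n → ℤ) →+ G) (v : G → ℝ) (z : G) :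
    |Usm m c v z - v z| ^ p ≤ Ep p m c v z := by
  refine le_trans (Real.rpow_le_rpow (abs_nonneg _) ?_ (by linarith))
      (avg_rpow_le (cX_pos m n) (sum_one_Xi m n) hp _ (fun _ => abs_nonneg _))
  have h1 : Usm m c v z - v z = (∑ ξ : Xi m n, (v (z + c (Yv ξ)) - v z)) / cX m n := by
    unfold Usm
    rw [Finset.sum_sub_distrib, sub_div]
    congr 1
    rw [Finset.sum_const, Finset.card_univ, nsmul_eq_mul]
    have h3 : ((Fintype.card (Xi m n) : ℕ) : ℝ) = cX m n := by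
      rw [← sum_one_Xi m n]; simp
    rw [h3, mul_comm, mul_div_assoc, div_self (cX_pos m n).ne', mul_one]
  rw [h1, abs_div, abs_of_pos (cX_pos m n)]
  exact div_le_div_of_nonneg_right (Finset.abs_sum_le_sum_abs _ _) (cX_pos m n).le

variable {N : ℕ}

/-- the path estimate summed over the group -/
lemma Good.path_sum {r : ℕ} {W : Fin N → Fin n → Bool} {μ : ℝ} (g : Good n N (r + 1) W μ)
    {p : ℝ} (hp : 2 < p) (c : (Fin n → ℤ) →+ G) (v : G → ℝ) (w : Fin n → Bool) (η : ℝ) (T : ℕ)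
    (hT : 0 < T) :
    ∑ z, |Usm r c v (z + (2 * T) • c (sv w)) - Usm r c v z| ^ p ≤
      6 ^ p * ((T : ℝ) ^ p * ∑ z, Sm p r c v w η z +
        (p / 2) ^ 2 * ((T : ℝ) ^ 2 * ∑ z, Lr p r c v w η z)) := by
  have hT' : (0 : ℝ) < T := by exact_mod_cast hT
  refine (Finset.sum_le_sum fun z _ => g.path hp c v w η T z).trans (le_of_eq ?_)
  rw [← Finset.mul_sum, Finset.sum_add_distrib, ← Finset.mul_sum, ← Finset.mul_sum,
    ← Finset.mul_sum]
  have h1 : ∀ f : G → ℝ, ∑ z, ∑ l ∈ range T, f (z + (2 * l + 1) • c (sv w)) = T * ∑ z, f z := by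
    intro f
    rw [Finset.sum_comm]
    have : ∀ l ∈ range T, ∑ z, f (z + (2 * l + 1) • c (sv w)) = ∑ z, f z := fun l _ =>
      Equiv.sum_comp (Equiv.addRight ((2 * l + 1) • c (sv w))) f
    rw [Finset.sum_congr rfl this]
    simp
  rw [h1 (Sm p r c v w η), h1 (Lr p r c v w η)]
  have h2 : (T : ℝ) ^ p = (T : ℝ) ^ (p - 1) * T := by
    rw [← Real.rpow_add_one hT'.ne']
    congr 1
    ring
  rw [h2]
  ring

/-- sum of the small parts over the family -/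
lemma Good.small_sum {r : ℕ} {W : Fin N → Fin n → Bool} {μ : ℝ} (g : Good n N (r + 1) W μ)
    {p : ℝ} (hp : 2 < p) (c : (Fin n → ℤ) →+ G) (v : G → ℝ) {η : ℝ} (hη : 0 < η) (z : G) :
    ∑ i, Sm p r c v (W i) η z ≤ η ^ (p - 2) * (1000 * N / n) * rr r c v z ^ p := by
  have hr := rr_nonneg r c v z
  have h1 : ∀ i, Sm p r c v (W i) η z ≤
      (η * rr r c v z) ^ (p - 2) * inc r c v (W i) z ^ 2 := by
    intro i
    unfold Sm
    split_ifs with h
    · rcases (abs_nonneg (inc r c v (W i) z)).lt_or_eq with h0 | h0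
      · have h2 : |inc r c v (W i) z| ^ p =
            |inc r c v (W i) z| ^ (p - 2) * inc r c v (W i) z ^ 2 := by
          rw [← sq_abs (inc r c v (W i) z), ← Real.rpow_natCast, ← Real.rpow_add h0]
          congr 1
          push_cast
          ring
        rw [h2]
        exact mul_le_mul_of_nonneg_right
          (Real.rpow_le_rpow (abs_nonneg _) h (by linarith)) (sq_nonneg _)
      · rw [← h0, Real.zero_rpow (by linarith)]
        positivity
    · positivity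
  refine (Finset.sum_le_sum fun i _ => h1 i).trans ?_
  rw [← Finset.mul_sum]
  have h2 := g.all c v z
  rw [← rr_sq] at h2
  refine (mul_le_mul_of_nonneg_left h2 (by positivity)).trans (le_of_eq ?_)
  rw [Real.mul_rpow hη.le hr]
  have h3 : rr r c v z ^ p = rr r c v z ^ (p - 2) * rr r c v z ^ 2 := by
    rcases hr.lt_or_eq with h0 | h0
    · rw [← Real.rpow_natCast, ← Real.rpow_add h0]
      congr 1
      push_cast
      ring
    · rw [← h0, Real.zero_rpow (by linarith)]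
      simp
  rw [h3]
  ring

/-- sum of the large parts over the family -/
lemma Good.large_sum {r : ℕ} {W : Fin N → Fin n → Bool} {μ : ℝ} (g : Good n N (r + 1) W μ)
    {p : ℝ} (hp : 2 < p) (c : (Fin n → ℤ) →+ G) (v : G → ℝ) {η : ℝ} (hη : 0 < η) (z : G) (k0 : ℕ)
    (hk : (k0 : ℝ) * (μ + n / ((r + 1 : ℕ) : ℝ)) ≤ 1 / 8) (hk1 : 1 ≤ k0 * η ^ 2) :
    ∑ i, Lr p r c v (W i) η z ≤
      (|Usm (r + 1) c v z| + rr r c v z) ^ (p - 2) * rr r c v z ^ 2 := by
  have hr := rr_nonneg r c v z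
  have h1 : ∑ i, Lr p r c v (W i) η z = (|Usm (r + 1) c v z| + rr r c v z) ^ (p - 2) *
      ∑ i ∈ Big r c v W η z, inc r c v (W i) z ^ 2 := by
    unfold Lr Big
    rw [Finset.sum_filter, Finset.mul_sum]
    refine Finset.sum_congr rfl fun i _ => ?_
    by_cases h : |inc r c v (W i) z| ≤ η * rr r c v z
    · rw [if_pos h, if_neg (not_lt.2 h), mul_zero]
    · rw [if_neg h, if_pos (not_le.1 h)]
  rw [h1]
  exact mul_le_mul_of_nonneg_left (g.big c v z hη k0 hk hk1) (by positivity)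

/-- combination for a fixed point -/
lemma combine {p : ℝ} (hp : 2 < p) {ζ K : ℝ}
    (hK : ∀ R F : ℝ, 0 ≤ R → 0 ≤ F → R ^ 2 * F ^ (p - 2) ≤ ζ * R ^ p + K * F ^ p)
    {T F r L : ℝ} (hT : 0 < T) (hF : 0 ≤ F) (hr : 0 ≤ r) :
    T ^ p * (L * r ^ p) + (p / 2) ^ 2 * (T ^ 2 * ((F + r) ^ (p - 2) * r ^ 2)) ≤
      (L + (p / 2) ^ 2 * 2 ^ (p - 2) * (ζ + T ^ (2 - p))) * (T ^ p * r ^ p) +
        (p / 2) ^ 2 * 2 ^ (p - 2) * K * F ^ p := by
  have h1 := add_rpow_le (by linarith : 0 ≤ p - 2) hF hr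
  have h2 := hK (T * r) F (by positivity) hF
  rw [Real.mul_rpow hT.le hr] at h2
  have h3 : r ^ (p - 2) * r ^ 2 = r ^ p := by
    rcases hr.lt_or_eq with h0 | h0
    · rw [← Real.rpow_natCast, ← Real.rpow_add h0]
      congr 1
      push_cast
      ring
    · rw [← h0, Real.zero_rpow (by linarith : p ≠ 0)]
      simp
  have h4 : T ^ 2 = T ^ (2 - p) * T ^ p := by
    rw [← Real.rpow_add hT, ← Real.rpow_natCast]
    congr 1
    push_cast
    ring
  have h5 : T ^ 2 * ((F + r) ^ (p - 2) * r ^ 2) ≤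
      2 ^ (p - 2) * ((T * r) ^ 2 * F ^ (p - 2) + T ^ (2 - p) * (T ^ p * r ^ p)) := by
    calc T ^ 2 * ((F + r) ^ (p - 2) * r ^ 2) ≤
          T ^ 2 * ((2 ^ (p - 2) * (F ^ (p - 2) + r ^ (p - 2))) * r ^ 2) := by
          refine mul_le_mul_of_nonneg_left ?_ (sq_nonneg _)
          exact mul_le_mul_of_nonneg_right h1 (sq_nonneg _)
      _ = 2 ^ (p - 2) * ((T * r) ^ 2 * F ^ (p - 2) + T ^ 2 * (r ^ (p - 2) * r ^ 2)) := by ring
      _ = _ := by rw [h3, h4]; ring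
  have h6 : 2 ^ (p - 2) * ((T * r) ^ 2 * F ^ (p - 2) + T ^ (2 - p) * (T ^ p * r ^ p)) ≤
      2 ^ (p - 2) * ((ζ * (T ^ p * r ^ p) + K * F ^ p) + T ^ (2 - p) * (T ^ p * r ^ p)) := by
    refine mul_le_mul_of_nonneg_left ?_ (by positivity)
    linarith
  have h7 := mul_le_mul_of_nonneg_left (h5.trans h6) (by positivity : 0 ≤ (p / 2) ^ 2)
  linarith

/-- inequality for the smoothed function -/
lemma Good.smooth_ineq {r : ℕ} {W : Fin N → Fin n → Bool} {μ : ℝ} (g : Good n N (r + 1) W μ)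
    {p : ℝ} (hp : 2 < p) (c : (Fin n → ℤ) →+ G) (v : G → ℝ) {η : ℝ} (hη : 0 < η) (k0 : ℕ)
    (hk : (k0 : ℝ) * (μ + n / ((r + 1 : ℕ) : ℝ)) ≤ 1 / 8) (hk1 : 1 ≤ k0 * η ^ 2)
    {ζ K : ℝ} (hζ : 0 ≤ ζ) (hK0 : 0 ≤ K)
    (hK : ∀ R F : ℝ, 0 ≤ R → 0 ≤ F → R ^ 2 * F ^ (p - 2) ≤ ζ * R ^ p + K * F ^ p)
    (T : ℕ) (hT : 0 < T) :
    ∑ i, ∑ z, |Usm r c v (z + (2 * T) • c (sv (W i))) - Usm r c v z| ^ p ≤
      6 ^ p * ((η ^ (p - 2) * (1000 * N / n) +
          (p / 2) ^ 2 * 2 ^ (p - 2) * (ζ + (T : ℝ) ^ (2 - p))) *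
          ((T : ℝ) ^ p * (5 * n / ((r + 1 : ℕ) : ℝ)) ^ (p / 2)) * ∑ z, Ep p (r + 1) c v z +
        (p / 2) ^ 2 * 2 ^ (p - 2) * K * ∑ z, |v z| ^ p) := by
  have hT' : (0 : ℝ) < T := by exact_mod_cast hT
  have h6 : (0 : ℝ) ≤ 6 ^ p := by positivity
  refine (Finset.sum_le_sum fun i _ => g.path_sum hp c v (W i) η T hT).trans ?_
  rw [← Finset.mul_sum]
  refine mul_le_mul_of_nonneg_left ?_ h6
  rw [Finset.sum_add_distrib, ← Finset.mul_sum, ← Finset.mul_sum, ← Finset.mul_sum,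
    Finset.sum_comm, Finset.sum_comm (f := fun i z => Lr p r c v (W i) η z)]
  have hz : ∀ z, (T : ℝ) ^ p * (∑ i, Sm p r c v (W i) η z) +
      (p / 2) ^ 2 * ((T : ℝ) ^ 2 * ∑ i, Lr p r c v (W i) η z) ≤
      (η ^ (p - 2) * (1000 * N / n) + (p / 2) ^ 2 * 2 ^ (p - 2) * (ζ + (T : ℝ) ^ (2 - p))) *
        ((T : ℝ) ^ p * (5 * n / ((r + 1 : ℕ) : ℝ)) ^ (p / 2)) * Ep p (r + 1) c v z +
      (p / 2) ^ 2 * 2 ^ (p - 2) * K * |Usm (r + 1) c v z| ^ p := by
    intro z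
    have hr := rr_nonneg r c v z
    have h1 := g.small_sum hp c v hη z
    have h2 := g.large_sum hp c v hη z k0 hk hk1
    have h3 := combine hp hK (L := η ^ (p - 2) * (1000 * N / n)) hT'
      (abs_nonneg (Usm (r + 1) c v z)) hr
    have h4 := rr_rpow_le hp r c v z
    have h5 := mul_le_mul_of_nonneg_left h1 (by positivity : (0 : ℝ) ≤ (T : ℝ) ^ p)
    have h7 := mul_le_mul_of_nonneg_left (mul_le_mul_of_nonneg_left h2
      (by positivity : (0 : ℝ) ≤ (T : ℝ) ^ 2)) (by positivity : (0 : ℝ) ≤ (p / 2) ^ 2)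
    refine (add_le_add h5 h7).trans (h3.trans ?_)
    refine add_le_add ?_ le_rfl
    rw [mul_assoc (_ + _)]
    refine mul_le_mul_of_nonneg_left ?_ (by positivity)
    rw [mul_assoc]
    exact mul_le_mul_of_nonneg_left h4 (by positivity)
  have hs := Finset.sum_le_sum fun z (_ : z ∈ (Finset.univ : Finset G)) => hz z
  rw [Finset.sum_add_distrib, Finset.sum_add_distrib, ← Finset.mul_sum, ← Finset.mul_sum,
    ← Finset.mul_sum, ← Finset.mul_sum, ← Finset.mul_sum] at hs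
  refine hs.trans (add_le_add le_rfl ?_)
  exact mul_le_mul_of_nonneg_left (Usm_rpow_le (by linarith) _ _ _) (by positivity)

/-- inequality for the function itself -/
lemma Good.scalar_ineq {r : ℕ} {W : Fin N → Fin n → Bool} {μ : ℝ} (g : Good n N (r + 1) W μ)
    {p : ℝ} (hp : 2 < p) (c : (Fin n → ℤ) →+ G) (v : G → ℝ) {η : ℝ} (hη : 0 < η) (k0 : ℕ)
    (hk : (k0 : ℝ) * (μ + n / ((r + 1 : ℕ) : ℝ)) ≤ 1 / 8) (hk1 : 1 ≤ k0 * η ^ 2)
    {ζ K : ℝ} (hζ : 0 ≤ ζ) (hK0 : 0 ≤ K)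
    (hK : ∀ R F : ℝ, 0 ≤ R → 0 ≤ F → R ^ 2 * F ^ (p - 2) ≤ ζ * R ^ p + K * F ^ p)
    (T : ℕ) (hT : 0 < T) :
    ∑ i, ∑ z, |v (z + (2 * T) • c (sv (W i))) - v z| ^ p ≤
      3 ^ p * (6 ^ p * ((η ^ (p - 2) * (1000 * N / n) +
          (p / 2) ^ 2 * 2 ^ (p - 2) * (ζ + (T : ℝ) ^ (2 - p))) *
          ((T : ℝ) ^ p * (5 * n / ((r + 1 : ℕ) : ℝ)) ^ (p / 2)) * ∑ z, Ep p (r + 1) c v z +
        (p / 2) ^ 2 * 2 ^ (p - 2) * K * ∑ z, |v z| ^ p) + 2 * N * ∑ z, Ep p r c v z) := by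
  have h1 : ∀ i, ∑ z, |v (z + (2 * T) • c (sv (W i))) - v z| ^ p ≤
      3 ^ p * (∑ z, |Usm r c v (z + (2 * T) • c (sv (W i))) - Usm r c v z| ^ p +
        2 * ∑ z, Ep p r c v z) := by
    intro i
    set e := (2 * T) • c (sv (W i))
    have h2 : ∀ z, |v (z + e) - v z| ^ p ≤ 3 ^ p * (|Usm r c v (z + e) - Usm r c v z| ^ p +
        Ep p r c v (z + e) + Ep p r c v z) := by
      intro z
      have h3 : |v (z + e) - v z| ≤ |Usm r c v (z + e) - Usm r c v z| +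
          |Usm r c v (z + e) - v (z + e)| + |Usm r c v z - v z| := by
        have e1 : v (z + e) - v z = (Usm r c v (z + e) - Usm r c v z) -
            (Usm r c v (z + e) - v (z + e)) + (Usm r c v z - v z) := by ring
        rw [e1]
        refine (abs_add_le _ _).trans (add_le_add ?_ le_rfl)
        exact abs_sub _ _
      refine (Real.rpow_le_rpow (abs_nonneg _) h3 (by linarith)).trans
        ((add3_rpow_le (by linarith) (abs_nonneg _) (abs_nonneg _) (abs_nonneg _)).trans ?_)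
      refine mul_le_mul_of_nonneg_left ?_ (by positivity)
      exact add_le_add (add_le_add le_rfl (Usm_sub_rpow_le (by linarith) _ _ _ _))
        (Usm_sub_rpow_le (by linarith) _ _ _ _)
    refine (Finset.sum_le_sum fun z _ => h2 z).trans (le_of_eq ?_)
    rw [← Finset.mul_sum, Finset.sum_add_distrib, Finset.sum_add_distrib]
    have h4 : ∑ z, Ep p r c v (z + e) = ∑ z, Ep p r c v z :=
      Equiv.sum_comp (Equiv.addRight e) (Ep p r c v)
    rw [h4]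
    ring
  refine (Finset.sum_le_sum fun i _ => h1 i).trans ?_
  rw [← Finset.mul_sum, Finset.sum_add_distrib]
  refine mul_le_mul_of_nonneg_left ?_ (by positivity)
  refine add_le_add (g.smooth_ineq hp c v hη k0 hk hk1 hζ hK0 hK T hT) (le_of_eq ?_)
  simp
  ring

end

end Pool.Agent.W533.V
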