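import Pool.Agent.W533.V.Ineq

set_option autoImplicit false
set_option linter.unusedSectionVars false
set_option linter.unusedSimpArgs false

/-!
The main inequality for functions with values in `ℓ_p`.
-/

open Finset Filter Topology

namespace Pool.Agent.W533.V

open Pool.Agent.W533.U (ellp ellp_sum_le ellp_pair_le ellp_tendsto)

/-- extension of an inequality between real functions to functions with values in `ℓ_p` -/
lemma ellp_ext {p : ℝ} (hp : 1 ≤ p) {G A B C : Type} [Fintype A] [Fintype B] [Fintype C]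
    (x y : A → G) (x' y' : B → G) (cb : B → ℝ) (hcb : ∀ b, 0 ≤ cb b) (z : C → G) (cz : C → ℝ)
    (hcz : ∀ a, 0 ≤ cz a)
    (h : ∀ v : G → ℝ, ∑ a, |v (x a) - v (y a)| ^ p ≤
      ∑ b, cb b * |v (x' b) - v (y' b)| ^ p + ∑ a, cz a * |v (z a)| ^ p) (V : G → ellp p) :
    ∑ a, ‖V (x a) - V (y a)‖ ^ p ≤
      ∑ b, cb b * ‖V (x' b) - V (y' b)‖ ^ p + ∑ a, cz a * ‖V (z a)‖ ^ p := by
  have ht : Tendsto (fun T => ∑ a, ∑ t ∈ Finset.range T, |(V (x a) - V (y a)) t| ^ p) atTop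
      (𝓝 (∑ a, ‖V (x a) - V (y a)‖ ^ p)) :=
    tendsto_finset_sum _ fun a _ => ellp_tendsto hp _
  refine le_of_tendsto' ht fun T => ?_
  rw [Finset.sum_comm]
  have h1 : ∀ t, ∑ a, |(V (x a) - V (y a)) t| ^ p ≤
      ∑ b, cb b * |V (x' b) t - V (y' b) t| ^ p + ∑ a, cz a * |V (z a) t| ^ p := by
    intro t
    have := h (fun g => V g t)
    simpa only [lp.coeFn_sub, Pi.sub_apply] using this
  refine (Finset.sum_le_sum fun t _ => h1 t).trans ?_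
  rw [Finset.sum_add_distrib, Finset.sum_comm, Finset.sum_comm (f := fun t a => cz a * |V (z a) t| ^ p)]
  refine add_le_add (Finset.sum_le_sum fun b _ => ?_) (Finset.sum_le_sum fun a _ => ?_)
  · rw [← Finset.mul_sum]
    exact mul_le_mul_of_nonneg_left (ellp_pair_le hp _ _ _) (hcb b)
  · rw [← Finset.mul_sum]
    exact mul_le_mul_of_nonneg_left (ellp_sum_le hp _ _) (hcz a)

variable {G : Type} [AddCommGroup G] [Fintype G] {n N : ℕ}

lemma Good.lp_ineq {r : ℕ} {W : Fin N → Fin n → Bool} {μ : ℝ} (g : Good n N (r + 1) W μ)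
    {p : ℝ} (hp : 2 < p) (c : (Fin n → ℤ) →+ G) {η : ℝ} (hη : 0 < η) (k0 : ℕ)
    (hk : (k0 : ℝ) * (μ + n / ((r + 1 : ℕ) : ℝ)) ≤ 1 / 8) (hk1 : 1 ≤ k0 * η ^ 2)
    {ζ K : ℝ} (hζ : 0 ≤ ζ) (hK0 : 0 ≤ K)
    (hK : ∀ R F : ℝ, 0 ≤ R → 0 ≤ F → R ^ 2 * F ^ (p - 2) ≤ ζ * R ^ p + K * F ^ p)
    (T : ℕ) (hT : 0 < T) (V : G → ellp p) :
    ∑ i, ∑ z, ‖V (z + (2 * T) • c (sv (W i))) - V z‖ ^ p ≤
      3 ^ p * (6 ^ p * ((η ^ (p - 2) * (1000 * N / n) +
          (p / 2) ^ 2 * 2 ^ (p - 2) * (ζ + (T : ℝ) ^ (2 - p))) *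
          ((T : ℝ) ^ p * (5 * n / ((r + 1 : ℕ) : ℝ)) ^ (p / 2)) *
            ((∑ z, ∑ ξ : Xi (r + 1) n, ‖V (z + c (Yv ξ)) - V z‖ ^ p) / cX (r + 1) n) +
        (p / 2) ^ 2 * 2 ^ (p - 2) * K * ∑ z, ‖V z‖ ^ p) +
        2 * N * ((∑ z, ∑ ξ : Xi r n, ‖V (z + c (Yv ξ)) - V z‖ ^ p) / cX r n)) := by
  have hT' : (0 : ℝ) < T := by exact_mod_cast hT
  set a1 : ℝ := 3 ^ p * 6 ^ p * ((η ^ (p - 2) * (1000 * N / n) +
          (p / 2) ^ 2 * 2 ^ (p - 2) * (ζ + (T : ℝ) ^ (2 - p))) *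
          ((T : ℝ) ^ p * (5 * n / ((r + 1 : ℕ) : ℝ)) ^ (p / 2))) / cX (r + 1) n with ha1
  set a2 : ℝ := 3 ^ p * 6 ^ p * ((p / 2) ^ 2 * 2 ^ (p - 2) * K) with ha2
  set a3 : ℝ := 3 ^ p * (2 * N) / cX r n with ha3
  have c1 := cX_pos (r + 1) n
  have c2 := cX_pos r n
  have h1 : 0 ≤ a1 := by positivity
  have h2 : 0 ≤ a2 := by positivity
  have h3 : 0 ≤ a3 := by positivity
  have key := ellp_ext (by linarith : 1 ≤ p) (A := Fin N × G)
    (B := (G × Xi (r + 1) n) ⊕ (G × Xi r n)) (C := G)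
    (fun a => a.2 + (2 * T) • c (sv (W a.1))) (fun a => a.2)
    (Sum.elim (fun b => b.1 + c (Yv b.2)) (fun b => b.1 + c (Yv b.2)))
    (Sum.elim (fun b => b.1) (fun b => b.1)) (Sum.elim (fun _ => a1) (fun _ => a3))
    (by rintro (b | b) <;> simp [h1, h3]) (fun z => z) (fun _ => a2) (fun _ => h2)
    (fun v => by
      simp only [Fintype.sum_prod_type, Fintype.sum_sum_type, Sum.elim_inl, Sum.elim_inr,
        ← Finset.mul_sum]
      refine (g.scalar_ineq hp c v hη k0 hk hk1 hζ hK0 hK T hT).trans (le_of_eq ?_)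
      simp only [Ep, ← Finset.sum_div]
      rw [ha1, ha2, ha3]
      ring) V
  simp only [Fintype.sum_prod_type, Fintype.sum_sum_type, Sum.elim_inl, Sum.elim_inr,
        ← Finset.mul_sum] at key
  refine key.trans (le_of_eq ?_)
  rw [ha1, ha2, ha3]
  ring

end Pool.Agent.W533.V
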