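import Pool.Agent.W533.V.LpExt
import Pool.Agent.W347.UP.Khin

set_option autoImplicit false
set_option linter.unusedSectionVars false
set_option linter.unusedSimpArgs false

/-!
The translation invariant metrics on `(ℤ/M)ⁿ`.
-/

open Finset Real

namespace Pool.Agent.W533.V

open Pool.Agent.W533.U (ellp embv norm_embv embv_sub sgz sgz_cast)

section psi

variable (M : ℕ) [NeZero M]

/-- sampled cosine -/
noncomputable def psi (c : ZMod M) : ℝ := Real.cos (2 * π * c.val / M)

lemma abs_psi_le (c : ZMod M) : |psi M c| ≤ 1 := Real.abs_cos_le_one _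

lemma Mpos : (0 : ℝ) < M := by exact_mod_cast Nat.pos_of_ne_zero (NeZero.ne M)

lemma psi_int (k : ℤ) : psi M (k : ZMod M) = Real.cos (2 * π * k / M) := by
  have hM := Mpos M
  have h1 : (((k : ZMod M).val : ℤ) : ℤ) = k % M := ZMod.val_intCast k
  have h2 : k = k % M + M * (k / M) := (Int.emod_add_mul_ediv k M).symm
  have h3 : (k : ℝ) = ((k : ZMod M).val : ℝ) + M * ((k / (M : ℤ) : ℤ) : ℝ) := by
    have : ((k : ZMod M).val : ℝ) = ((((k : ZMod M).val : ℤ) : ℤ) : ℝ) := by push_cast; rfl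
    rw [this, h1]
    exact_mod_cast h2
  unfold psi
  rw [h3]
  have h4 : 2 * π * (((k : ZMod M).val : ℝ) + M * ((k / (M : ℤ) : ℤ) : ℝ)) / M =
      2 * π * ((k : ZMod M).val : ℝ) / M + ((k / (M : ℤ) : ℤ) : ℝ) * (2 * π) := by
    field_simp
  rw [h4, Real.cos_add_int_mul_two_pi]

/-- mean difference of the sampled cosine -/
noncomputable def Psi (p : ℝ) (u : ZMod M) : ℝ := (∑ c : ZMod M, |psi M (u + c) - psi M c| ^ p) / M

lemma Psi_nonneg (p : ℝ) (u : ZMod M) : 0 ≤ Psi M p u :=
  div_nonneg (Finset.sum_nonneg fun _ _ => by positivity) (Mpos M).le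

lemma sum_le_M {f : ZMod M → ℝ} {b : ℝ} (h : ∀ c, f c ≤ b) : (∑ c, f c) / M ≤ b := by
  have hM := Mpos M
  rw [div_le_iff₀ hM]
  refine (Finset.sum_le_sum fun c _ => h c).trans (le_of_eq ?_)
  simp [mul_comm]

lemma Psi_le {p : ℝ} (hp : 0 ≤ p) (u : ZMod M) : Psi M p u ≤ 2 ^ p := by
  refine sum_le_M M fun c => ?_
  refine Real.rpow_le_rpow (abs_nonneg _) ?_ hp
  refine (abs_sub _ _).trans ?_
  linarith [abs_psi_le M (u + c), abs_psi_le M c]

lemma abs_cos_sub_cos_le (x y : ℝ) : |Real.cos x - Real.cos y| ≤ |x - y| := by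
  rw [Real.cos_sub_cos, abs_mul, abs_mul, abs_neg, abs_two]
  have h1 := Real.abs_sin_le_one ((x + y) / 2)
  have h2 : |Real.sin ((x - y) / 2)| ≤ |(x - y) / 2| := Real.abs_sin_le_abs
  have h3 : |(x - y) / 2| = |x - y| / 2 := by rw [abs_div, abs_two]
  nlinarith [abs_nonneg (Real.sin ((x + y) / 2)), abs_nonneg (Real.sin ((x - y) / 2)),
    abs_nonneg (x - y)]

lemma Psi_int_le {p : ℝ} (hp : 0 ≤ p) (k : ℤ) :
    Psi M p (k : ZMod M) ≤ (2 * π / M) ^ p * |(k : ℝ)| ^ p := by
  have hM := Mpos M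
  rw [← Real.mul_rpow (by positivity) (abs_nonneg _)]
  refine sum_le_M M fun c => ?_
  refine Real.rpow_le_rpow (abs_nonneg _) ?_ hp
  have h1 : (k : ZMod M) + c = ((k + c.val : ℤ) : ZMod M) := by
    push_cast
    rw [ZMod.natCast_zmod_val]
  have h2 : c = (((c.val : ℕ) : ℤ) : ZMod M) := by
    push_cast
    rw [ZMod.natCast_zmod_val]
  rw [h1, psi_int]
  nth_rewrite 2 [h2]
  rw [psi_int]
  refine (abs_cos_sub_cos_le _ _).trans (le_of_eq ?_)
  have h3 : 2 * π * ((k + c.val : ℤ) : ℝ) / M - 2 * π * ((c.val : ℤ) : ℝ) / M = 2 * π / M * k := by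
    push_cast
    ring
  rw [h3, abs_mul, abs_of_pos (by positivity)]

lemma psi_sq_sum {L : ℕ} (hL : M = 4 * L) : ∑ c, psi M c ^ 2 = M / 2 := by
  have hM := Mpos M
  have h1 : ∀ c : ZMod M, psi M c ^ 2 + psi M (c + (L : ℕ)) ^ 2 = 1 := by
    intro c
    have h1 : c + (L : ℕ) = ((c.val + L : ℤ) : ZMod M) := by
      push_cast
      rw [ZMod.natCast_zmod_val]
    have h2 : c = (((c.val : ℕ) : ℤ) : ZMod M) := by
      push_cast
      rw [ZMod.natCast_zmod_val]
    rw [h1, psi_int]
    nth_rewrite 1 [h2]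
    rw [psi_int]
    have h3 : 2 * π * ((c.val + L : ℤ) : ℝ) / M = 2 * π * ((c.val : ℤ) : ℝ) / M + π / 2 := by
      have hM4 : (M : ℝ) = 4 * L := by exact_mod_cast hL
      have hL0 : (0 : ℝ) < L := by linarith
      rw [hM4]
      push_cast
      field_simp
      ring
    rw [h3, Real.cos_add_pi_div_two]
    rw [neg_sq]
    exact Real.cos_sq_add_sin_sq _
  have h2 : ∑ c, psi M (c + (L : ℕ)) ^ 2 = ∑ c, psi M c ^ 2 :=
    Equiv.sum_comp (Equiv.addRight ((L : ℕ) : ZMod M)) (fun c => psi M c ^ 2)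
  have h3 := Finset.sum_congr (rfl : (Finset.univ : Finset (ZMod M)) = Finset.univ)
    fun c _ => h1 c
  rw [Finset.sum_add_distrib, h2] at h3
  simp at h3
  linarith

lemma Psi_half {p : ℝ} (hp : 2 < p) {L : ℕ} (hL : M = 4 * L) :
    2 ^ (p / 2) ≤ Psi M p ((2 * L : ℤ) : ZMod M) := by
  have hM := Mpos M
  have h1 : ∀ c : ZMod M, |psi M (((2 * L : ℤ) : ZMod M) + c) - psi M c| ^ p =
      (4 * psi M c ^ 2) ^ (p / 2) := by
    intro c
    have h1 : ((2 * L : ℤ) : ZMod M) + c = ((2 * L + c.val : ℤ) : ZMod M) := by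
      push_cast
      rw [ZMod.natCast_zmod_val]
    have h2 : c = (((c.val : ℕ) : ℤ) : ZMod M) := by
      push_cast
      rw [ZMod.natCast_zmod_val]
    have h3 : psi M (((2 * L : ℤ) : ZMod M) + c) = - psi M c := by
      rw [h1, psi_int]
      nth_rewrite 2 [h2]
      rw [psi_int]
      have h3 : 2 * π * ((2 * L + c.val : ℤ) : ℝ) / M = 2 * π * ((c.val : ℤ) : ℝ) / M + π := by
        have hM4 : (M : ℝ) = 4 * L := by exact_mod_cast hL
        have hL0 : (0 : ℝ) < L := by linarith
        rw [hM4]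
        push_cast
        field_simp
        ring
      rw [h3, Real.cos_add_pi]
    rw [h3]
    have h4 : 4 * psi M c ^ 2 = |-psi M c - psi M c| ^ 2 := by rw [sq_abs]; ring
    rw [h4, ← Real.rpow_natCast, ← Real.rpow_mul (abs_nonneg _)]
    congr 1
    push_cast
    ring
  unfold Psi
  simp only [h1]
  have h2 := avg_rpow_le (κ := ZMod M) hM (by simp) (by linarith : 1 ≤ p / 2)
    (fun c => 4 * psi M c ^ 2) (fun c => by positivity)
  refine le_trans (le_of_eq ?_) h2
  rw [← Finset.mul_sum, psi_sq_sum M hL]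
  congr 1
  field_simp
  norm_num

end psi

section metric

variable {n : ℕ} (M : ℕ) [NeZero M]

/-- reduction modulo `M` -/
def cst : (Fin n → ℤ) →+ (Fin n → ZMod M) where
  toFun y := fun j => (y j : ZMod M)
  map_zero' := by funext j; simp
  map_add' x y := by funext j; simp

/-- pairing with a sign vector -/
def pr (w : Fin n → Bool) (x : Fin n → ZMod M) : ZMod M := ∑ j, ((sgz (w j) : ℤ) : ZMod M) * x j

lemma pr_sub (w : Fin n → Bool) (x y : Fin n → ZMod M) : pr M w (x - y) = pr M w x - pr M w y := by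
  unfold pr
  rw [← Finset.sum_sub_distrib]
  exact Finset.sum_congr rfl fun j _ => by simp [mul_sub]

lemma pr_cst (w : Fin n → Bool) (y : Fin n → ℤ) :
    pr M w (cst M y) = ((∑ j, sgz (w j) * y j : ℤ) : ZMod M) := by
  unfold pr cst
  push_cast
  rfl

variable {I : Type} [Fintype I]

open Classical in
/-- the `p`-th power of the metric -/
noncomputable def PI (p eps : ℝ) (W : I → Fin n → Bool) (y : Fin n → ZMod M) : ℝ :=
  (∑ i, Psi M p (pr M (W i) y)) / Fintype.card I + 2 * eps * (if y = 0 then 0 else 1)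

lemma PI_nonneg (p : ℝ) {eps : ℝ} (he : 0 ≤ eps) (W : I → Fin n → Bool) (y : Fin n → ZMod M) :
    0 ≤ PI M p eps W y := by
  unfold PI
  have : 0 ≤ ∑ i, Psi M p (pr M (W i) y) := Finset.sum_nonneg fun _ _ => Psi_nonneg _ _ _
  split_ifs <;> positivity

open Classical in
/-- the embedding -/
noncomputable def EmI (p eps : ℝ) (W : I → Fin n → Bool) (x : Fin n → ZMod M) : ellp p :=
  embv p (Ω := (I × ZMod M) ⊕ (Fin n → ZMod M))
    (Sum.elim (fun a => psi M (pr M (W a.1) x + a.2) * ((Fintype.card I : ℝ) * M) ^ (-(1 / p)))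
      (fun z => eps ^ (1 / p) * (if z = x then 1 else 0)))

lemma norm_EmI [Nonempty I] {p : ℝ} (hp : 1 ≤ p) {eps : ℝ} (he : 0 < eps) (W : I → Fin n → Bool)
    (x y : Fin n → ZMod M) : ‖EmI M p eps W x - EmI M p eps W y‖ ^ p = PI M p eps W (x - y) := by
  classical
  have hM := Mpos M
  have hI : (0 : ℝ) < Fintype.card I := by exact_mod_cast Fintype.card_pos
  have hp0 : p ≠ 0 := by linarith
  unfold EmI
  rw [embv_sub, norm_embv hp, Fintype.sum_sum_type, Fintype.sum_prod_type]
  simp only [Sum.elim_inl, Sum.elim_inr]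
  have e1 : ∀ (i : I) (c : ZMod M),
      |psi M (pr M (W i) x + c) * ((Fintype.card I : ℝ) * M) ^ (-(1 / p)) -
        psi M (pr M (W i) y + c) * ((Fintype.card I : ℝ) * M) ^ (-(1 / p))| ^ p =
      |psi M (pr M (W i) x + c) - psi M (pr M (W i) y + c)| ^ p / (Fintype.card I * M) := by
    intro i c
    rw [← sub_mul, abs_mul, Real.mul_rpow (abs_nonneg _) (abs_nonneg _),
      abs_of_nonneg (by positivity : 0 ≤ ((Fintype.card I : ℝ) * M) ^ (-(1 / p))),
      ← Real.rpow_mul (by positivity)]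
    have : -(1 / p) * p = -1 := by field_simp
    rw [this, Real.rpow_neg_one]
    rfl
  simp only [e1]
  have e2 : ∀ i : I, ∑ c : ZMod M, |psi M (pr M (W i) x + c) - psi M (pr M (W i) y + c)| ^ p /
      (Fintype.card I * M) = Psi M p (pr M (W i) (x - y)) / Fintype.card I := by
    intro i
    rw [← Finset.sum_div]
    unfold Psi
    rw [div_div, mul_comm (M : ℝ)]
    congr 1
    rw [← Equiv.sum_comp (Equiv.addRight (pr M (W i) y))
      (fun c => |psi M (pr M (W i) (x - y) + c) - psi M c| ^ p)]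
    refine Finset.sum_congr rfl fun c _ => ?_
    simp only [Equiv.coe_addRight]
    rw [pr_sub]
    congr 3
    · congr 1
      ring
    · congr 1
      ring
  simp only [e2]
  rw [← Finset.sum_div]
  unfold PI
  congr 1
  by_cases hxy : x = y
  · subst hxy
    simp [Real.zero_rpow hp0]
  · rw [if_neg (sub_ne_zero.2 hxy)]
    have e3 : ∀ z : Fin n → ZMod M, |eps ^ (1 / p) * (if z = x then (1 : ℝ) else 0) -
        eps ^ (1 / p) * (if z = y then (1 : ℝ) else 0)| ^ p =
        (if z = x then eps else 0) + (if z = y then eps else 0) := by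
      intro z
      have h4 : (eps ^ (1 / p)) ^ p = eps := by
        rw [← Real.rpow_mul he.le, one_div_mul_cancel hp0, Real.rpow_one]
      have h5 : 0 ≤ eps ^ (1 / p) := by positivity
      by_cases hx : z = x
      · have hy : z ≠ y := by rw [hx]; exact hxy
        rw [if_pos hx, if_neg hy, if_pos hx, if_neg hy, mul_one, mul_zero, sub_zero,
          abs_of_nonneg h5, h4, add_zero]
      · by_cases hy : z = y
        · rw [if_neg hx, if_pos hy, if_neg hx, if_pos hy, mul_one, mul_zero, zero_sub, abs_neg,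
            abs_of_nonneg h5, h4, zero_add]
        · simp [hx, hy, Real.zero_rpow hp0]
    simp only [e3, Finset.sum_add_distrib, Finset.sum_ite_eq', Finset.mem_univ, if_true]
    ring

lemma EmI_inj [Nonempty I] {p : ℝ} (hp : 1 ≤ p) {eps : ℝ} (he : 0 < eps) (W : I → Fin n → Bool) :
    Function.Injective (EmI M p eps W) := by
  intro x y h
  by_contra hne
  have h1 := norm_EmI M hp he W x y
  haveI : Fact (1 ≤ ENNReal.ofReal p) := ⟨by simpa using hp⟩
  rw [h, sub_self, norm_zero, Real.zero_rpow (by linarith)] at h1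
  have h2 : 0 < PI M p eps W (x - y) := by
    unfold PI
    rw [if_neg (sub_ne_zero.2 hne)]
    have : 0 ≤ ∑ i, Psi M p (pr M (W i) (x - y)) := Finset.sum_nonneg fun _ _ => Psi_nonneg _ _ _
    positivity
  linarith

end metric

end Pool.Agent.W533.V
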