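import Pool.Agent.W533.V.Asm

set_option autoImplicit false
set_option linter.unusedSectionVars false
set_option linter.unusedSimpArgs false

/-!
Elementary estimates for the choice of the parameters.
-/

open Finset Real Filter Topology

namespace Pool.Agent.W533.V

lemma young {p ζ : ℝ} (hp : 2 < p) (hζ : 0 < ζ) (R F : ℝ) (hR : 0 ≤ R) (hF : 0 ≤ F) :
    R ^ 2 * F ^ (p - 2) ≤ ζ * R ^ p + ζ ^ (-(2 / (p - 2))) * F ^ p := by
  have h2 : 0 < p - 2 := by linarith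
  have e1 : ∀ x : ℝ, 0 ≤ x → x ^ p = x ^ 2 * x ^ (p - 2) := by
    intro x hx
    rcases hx.lt_or_eq with h0 | h0
    · rw [← Real.rpow_natCast, ← Real.rpow_add h0]
      congr 1
      push_cast
      ring
    · rw [← h0, Real.zero_rpow (by linarith)]
      simp
  have hK : 0 < ζ ^ (-(2 / (p - 2))) := Real.rpow_pos_of_pos hζ _
  rcases le_total (F ^ (p - 2)) (ζ * R ^ (p - 2)) with h | h
  · have h3 : R ^ 2 * F ^ (p - 2) ≤ ζ * R ^ p := by
      rw [e1 R hR]
      calc R ^ 2 * F ^ (p - 2) ≤ R ^ 2 * (ζ * R ^ (p - 2)) :=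
            mul_le_mul_of_nonneg_left h (sq_nonneg _)
        _ = _ := by ring
    have h4 : 0 ≤ ζ ^ (-(2 / (p - 2))) * F ^ p := by positivity
    linarith
  · have h3 : R ≤ ζ ^ (-(1 / (p - 2))) * F := by
      by_contra hcon
      push Not at hcon
      have h5 := Real.rpow_lt_rpow (by positivity) hcon h2
      rw [Real.mul_rpow (by positivity) hF, ← Real.rpow_mul hζ.le] at h5
      have h6 : -(1 / (p - 2)) * (p - 2) = -1 := by field_simp
      rw [h6, Real.rpow_neg_one, inv_mul_eq_div, div_lt_iff₀ hζ] at h5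
      linarith
    have h5 : R ^ 2 ≤ ζ ^ (-(2 / (p - 2))) * F ^ 2 := by
      calc R ^ 2 ≤ (ζ ^ (-(1 / (p - 2))) * F) ^ 2 := pow_le_pow_left₀ hR h3 2
        _ = _ := by
            rw [mul_pow, ← Real.rpow_natCast (ζ ^ (-(1 / (p - 2)))), ← Real.rpow_mul hζ.le]
            congr 2
            push_cast
            ring
    have h6 : R ^ 2 * F ^ (p - 2) ≤ ζ ^ (-(2 / (p - 2))) * F ^ p := by
      rw [e1 F hF]
      calc R ^ 2 * F ^ (p - 2) ≤ ζ ^ (-(2 / (p - 2))) * F ^ 2 * F ^ (p - 2) :=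
            mul_le_mul_of_nonneg_right h5 (by positivity)
        _ = _ := by ring
    have h7 : 0 ≤ ζ * R ^ p := by positivity
    linarith

lemma abs_sub_le_of_rpow {p a b d : ℝ} (hp : 1 ≤ p) (ha : 0 ≤ a) (hb : 0 ≤ b) (hd : 0 ≤ d)
    (h : |a ^ p - b ^ p| ≤ d ^ p) : |a - b| ≤ d := by
  have key : ∀ x y : ℝ, 0 ≤ x → 0 ≤ y → y ≤ x → x ^ p - y ^ p ≤ d ^ p → x - y ≤ d := by
    intro x y hx hy hxy h
    have h1 := Real.add_rpow_le_rpow_add (sub_nonneg.2 hxy) hy hp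
    rw [sub_add_cancel] at h1
    have h2 : (x - y) ^ p ≤ d ^ p := by linarith
    exact (Real.rpow_le_rpow_iff (sub_nonneg.2 hxy) hd (by linarith)).1 h2
  rw [abs_le] at h
  rcases le_total a b with hab | hab
  · rw [abs_sub_comm, abs_of_nonneg (sub_nonneg.2 hab)]
    exact key b a hb ha hab (by linarith [h.1])
  · rw [abs_of_nonneg (sub_nonneg.2 hab)]
    exact key a b ha hb hab h.2

lemma exists_t {p c s : ℝ} (hp : 2 < p) (hc : 0 < c) (hs : 0 < s) :
    ∃ t : ℕ, 16 ≤ t ∧ (t : ℝ) ^ (-(p - 2)) ≤ s ∧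
      Real.log (4 * (t : ℝ) ^ 80) + 1 ≤ c * (t : ℝ) ^ (p - 2) ∧
      8 * ((t : ℝ) ^ (40 + 2 * (p - 2)) * Real.exp (-(1 / 2) * t)) ≤ 1 / 4 := by
  have h2 : 0 < p - 2 := by linarith
  have t1 : ∀ᶠ x : ℝ in atTop, x ^ (-(p - 2)) ≤ s :=
    (tendsto_rpow_neg_atTop h2).eventually (ge_mem_nhds hs)
  have t3 : ∀ᶠ x : ℝ in atTop, 8 * (x ^ (40 + 2 * (p - 2)) * Real.exp (-(1 / 2) * x)) ≤ 1 / 4 := by
    have := (tendsto_rpow_mul_exp_neg_mul_atTop_nhds_zero (40 + 2 * (p - 2)) (1 / 2)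
      (by norm_num)).const_mul (8 : ℝ)
    rw [mul_zero] at this
    exact this.eventually (ge_mem_nhds (by norm_num))
  have t2 : ∀ᶠ x : ℝ in atTop, Real.log (4 * x ^ 80) + 1 ≤ c * x ^ (p - 2) := by
    have a1 := (isLittleO_log_rpow_atTop h2).def (by positivity : 0 < c / 160)
    have a2 : ∀ᶠ x : ℝ in atTop, (Real.log 4 + 1) * 2 / c ≤ x ^ (p - 2) :=
      (tendsto_rpow_atTop h2).eventually_ge_atTop _
    filter_upwards [a1, a2, eventually_gt_atTop 1] with x b1 b2 b3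
    have hx : 0 < x := by linarith
    rw [Real.norm_eq_abs, Real.norm_eq_abs, abs_of_nonneg (Real.log_nonneg b3.le),
      abs_of_nonneg (by positivity)] at b1
    rw [Real.log_mul (by norm_num) (by positivity), Real.log_pow]
    rw [div_le_iff₀ hc] at b2
    push_cast
    linarith
  obtain ⟨t, ht⟩ := (tendsto_natCast_atTop_atTop.eventually (t1.and (t2.and t3))).and
    (eventually_ge_atTop 16) |>.exists
  exact ⟨t, ht.2, ht.1.1, ht.1.2.1, ht.1.2.2⟩

end Pool.Agent.W533.V
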