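import Pool.Agent.W533.V.Par

set_option autoImplicit false
set_option linter.unusedSectionVars false
set_option linter.unusedSimpArgs false

/-!
Numerical facts on the parameters.
-/

open Finset Real Filter Topology

namespace Pool.Agent.W533.V

/-- the ratio `N / n` -/
noncomputable def LL (p : ℝ) (t : ℕ) : ℕ := ⌈(t : ℝ) ^ (p - 2)⌉₊

lemma LL_ge (p : ℝ) (t : ℕ) : (t : ℝ) ^ (p - 2) ≤ LL p t := Nat.le_ceil _

lemma one_le_tp {p : ℝ} (hp : 2 < p) {t : ℕ} (ht : 16 ≤ t) : 1 ≤ (t : ℝ) ^ (p - 2) :=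
  Real.one_le_rpow (by exact_mod_cast (by omega : 1 ≤ t)) (by linarith)

lemma LL_le {p : ℝ} (hp : 2 < p) {t : ℕ} (ht : 16 ≤ t) : (LL p t : ℝ) ≤ 2 * (t : ℝ) ^ (p - 2) := by
  have h1 := one_le_tp hp ht
  have h2 := Nat.ceil_lt_add_one (by linarith : 0 ≤ (t : ℝ) ^ (p - 2))
  unfold LL
  linarith

lemma LL_pos {p : ℝ} (hp : 2 < p) {t : ℕ} (ht : 16 ≤ t) : 1 ≤ LL p t := by
  have h1 := one_le_tp hp ht
  have h2 := LL_ge p t
  have : (1 : ℝ) ≤ LL p t := h1.trans h2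
  exact_mod_cast this

lemma exp_neg16 : Real.exp (-16) ≤ 1 / 17 := by
  rw [Real.exp_neg, ← one_div]
  refine one_div_le_one_div_of_le (by norm_num) ?_
  have := Real.add_one_le_exp 16
  linarith

/-- the union bound -/
lemma par_sum {p : ℝ} (hp : 2 < p) {t : ℕ} (ht : 16 ≤ t) {ε : ℝ}
    (h2 : Real.log (4 * (t : ℝ) ^ 80) + 1 ≤ ε ^ 2 / (2 * ((2 : ℝ) ^ p) ^ 2) * (t : ℝ) ^ (p - 2))
    (h3 : 8 * ((t : ℝ) ^ (40 + 2 * (p - 2)) * Real.exp (-(1 / 2) * t)) ≤ 1 / 4) :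
    Real.exp (-((t ^ 20 * LL p t : ℕ) : ℝ)) +
      2 * ((4 * ((t ^ 20) ^ 3 * t ^ 20) : ℕ) : ℝ) ^ (t ^ 20) *
        Real.exp (-(ε ^ 2 * ((t ^ 20 * LL p t : ℕ) : ℝ) / (2 * ((2 : ℝ) ^ p) ^ 2))) +
      2 * ((t ^ 20 * LL p t : ℕ) : ℝ) ^ 2 *
        Real.exp (-((1 / (t : ℝ) ^ 5) ^ 2 * ((t ^ 20 : ℕ) : ℝ) / 2)) < 1 := by
  have ht' : (16 : ℝ) ≤ t := by exact_mod_cast ht
  have ht0 : (0 : ℝ) < t := by linarith
  have ht1 : (1 : ℝ) ≤ t := by linarith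
  have hL1 : (1 : ℝ) ≤ LL p t := by exact_mod_cast LL_pos hp ht
  have hn16 : (16 : ℝ) ≤ (t : ℝ) ^ 20 := by
    calc (16 : ℝ) ≤ t := ht'
      _ ≤ t ^ 20 := le_self_pow₀ ht1 (by norm_num)
  have hn0 : (0 : ℝ) < (t : ℝ) ^ 20 := by positivity
  push_cast
  -- first term
  have a1 : Real.exp (-((t : ℝ) ^ 20 * LL p t)) ≤ 1 / 17 := by
    refine le_trans (Real.exp_le_exp.2 ?_) exp_neg16
    nlinarith
  -- second term
  have a2 : 2 * (4 * (((t : ℝ) ^ 20) ^ 3 * (t : ℝ) ^ 20)) ^ (t ^ 20) *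
        Real.exp (-(ε ^ 2 * ((t : ℝ) ^ 20 * LL p t) / (2 * ((2 : ℝ) ^ p) ^ 2))) ≤ 2 / 17 := by
    have e1 : 4 * (((t : ℝ) ^ 20) ^ 3 * (t : ℝ) ^ 20) = 4 * (t : ℝ) ^ 80 := by ring
    rw [e1]
    have hM0 : 0 < 4 * (t : ℝ) ^ 80 := by positivity
    have e2 : (4 * (t : ℝ) ^ 80) ^ (t ^ 20) =
        Real.exp ((t : ℝ) ^ 20 * Real.log (4 * (t : ℝ) ^ 80)) := by
      have e0 : (t : ℝ) ^ 20 * Real.log (4 * (t : ℝ) ^ 80) =
          Real.log (4 * (t : ℝ) ^ 80) * ((t ^ 20 : ℕ) : ℝ) := by push_cast; ring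
      rw [e0, Real.exp_mul, Real.exp_log hM0, Real.rpow_natCast]
    rw [e2, mul_assoc, ← Real.exp_add]
    have e3 : (t : ℝ) ^ 20 * Real.log (4 * (t : ℝ) ^ 80) +
        -(ε ^ 2 * ((t : ℝ) ^ 20 * LL p t) / (2 * ((2 : ℝ) ^ p) ^ 2)) ≤ -16 := by
      have e4 : ε ^ 2 * ((t : ℝ) ^ 20 * LL p t) / (2 * ((2 : ℝ) ^ p) ^ 2) =
          (t : ℝ) ^ 20 * (ε ^ 2 / (2 * ((2 : ℝ) ^ p) ^ 2) * LL p t) := by ring
      rw [e4]
      have e5 : ε ^ 2 / (2 * ((2 : ℝ) ^ p) ^ 2) * (t : ℝ) ^ (p - 2) ≤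
          ε ^ 2 / (2 * ((2 : ℝ) ^ p) ^ 2) * LL p t :=
        mul_le_mul_of_nonneg_left (LL_ge p t) (by positivity)
      have e6 := mul_le_mul_of_nonneg_left (h2.trans e5) hn0.le
      nlinarith
    have e7 := (Real.exp_le_exp.2 e3).trans exp_neg16
    linarith
  -- third term
  have a3 : 2 * ((t : ℝ) ^ 20 * LL p t) ^ 2 *
        Real.exp (-((1 / (t : ℝ) ^ 5) ^ 2 * (t : ℝ) ^ 20 / 2)) ≤ 1 / 4 := by
    refine le_trans ?_ h3
    have e1 : Real.exp (-((1 / (t : ℝ) ^ 5) ^ 2 * (t : ℝ) ^ 20 / 2)) ≤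
        Real.exp (-(1 / 2) * t) := by
      refine Real.exp_le_exp.2 ?_
      have e2 : (1 / (t : ℝ) ^ 5) ^ 2 * (t : ℝ) ^ 20 = (t : ℝ) ^ 10 := by field_simp
      rw [e2]
      have e3 : (t : ℝ) ≤ t ^ 10 := le_self_pow₀ ht1 (by norm_num)
      linarith
    have e2 : 2 * ((t : ℝ) ^ 20 * LL p t) ^ 2 ≤ 8 * (t : ℝ) ^ (40 + 2 * (p - 2)) := by
      have e3 : (LL p t : ℝ) ^ 2 ≤ (2 * (t : ℝ) ^ (p - 2)) ^ 2 :=
        pow_le_pow_left₀ (by positivity) (LL_le hp ht) 2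
      have e4 : (t : ℝ) ^ (40 + 2 * (p - 2)) = (t : ℝ) ^ 40 * ((t : ℝ) ^ (p - 2)) ^ 2 := by
        rw [Real.rpow_add ht0, ← Real.rpow_natCast ((t : ℝ) ^ (p - 2)), ← Real.rpow_mul ht0.le,
          ← Real.rpow_natCast (t : ℝ)]
        congr 1
        congr 1
        push_cast
        ring
      rw [e4]
      have e5 := mul_le_mul_of_nonneg_left e3 (by positivity : 0 ≤ 2 * ((t : ℝ) ^ 20) ^ 2)
      calc 2 * ((t : ℝ) ^ 20 * LL p t) ^ 2 = 2 * ((t : ℝ) ^ 20) ^ 2 * (LL p t : ℝ) ^ 2 := by ring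
        _ ≤ _ := e5
        _ = _ := by ring
    calc _ ≤ 8 * (t : ℝ) ^ (40 + 2 * (p - 2)) * Real.exp (-(1 / 2) * t) :=
          mul_le_mul e2 e1 (Real.exp_pos _).le (by positivity)
      _ = _ := by ring
  linarith

/-- first coefficient -/
lemma par_a {p : ℝ} (hp : 2 < p) {t : ℕ} (ht : 16 ≤ t) :
    (1 / (t : ℝ) ^ 2) ^ (p - 2) * (1000 * ((t ^ 20 * LL p t : ℕ) : ℝ) / ((t ^ 20 : ℕ) : ℝ)) ≤
      2000 * (t : ℝ) ^ (-(p - 2)) := by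
  have ht0 : (0 : ℝ) < t := by exact_mod_cast (by omega : 0 < t)
  have hL := LL_le hp ht
  push_cast
  have e1 : 1000 * ((t : ℝ) ^ 20 * LL p t) / (t : ℝ) ^ 20 = 1000 * LL p t := by field_simp
  rw [e1]
  have e2 : (1 / (t : ℝ) ^ 2) ^ (p - 2) = (t : ℝ) ^ (-(p - 2)) * (t : ℝ) ^ (-(p - 2)) := by
    rw [one_div, Real.inv_rpow (by positivity), ← Real.rpow_natCast (t : ℝ), ← Real.rpow_mul ht0.le,
      ← Real.rpow_neg ht0.le, ← Real.rpow_add ht0]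
    congr 1
    push_cast
    ring
  have e3 : (t : ℝ) ^ (-(p - 2)) * (t : ℝ) ^ (p - 2) = 1 := by
    rw [← Real.rpow_add ht0, neg_add_cancel, Real.rpow_zero]
  have hx : 0 < (t : ℝ) ^ (-(p - 2)) := Real.rpow_pos_of_pos ht0 _
  rw [e2]
  calc (t : ℝ) ^ (-(p - 2)) * (t : ℝ) ^ (-(p - 2)) * (1000 * LL p t) ≤
        (t : ℝ) ^ (-(p - 2)) * (t : ℝ) ^ (-(p - 2)) * (1000 * (2 * (t : ℝ) ^ (p - 2))) := by
        refine mul_le_mul_of_nonneg_left ?_ (by positivity)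
        linarith
    _ = 2000 * (t : ℝ) ^ (-(p - 2)) * ((t : ℝ) ^ (-(p - 2)) * (t : ℝ) ^ (p - 2)) := by ring
    _ = _ := by rw [e3, mul_one]

/-- second coefficient -/
lemma par_b {p : ℝ} (hp : 2 < p) {t : ℕ} (ht : 16 ≤ t) :
    (((t ^ 20) ^ 3 : ℕ) : ℝ) ^ (2 - p) ≤ (t : ℝ) ^ (-(p - 2)) := by
  have ht1 : (1 : ℝ) ≤ t := by exact_mod_cast (by omega : 1 ≤ t)
  have ht0 : (0 : ℝ) < t := by linarith
  push_cast
  rw [← pow_mul, ← Real.rpow_natCast (t : ℝ), ← Real.rpow_mul ht0.le]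
  refine Real.rpow_le_rpow_of_exponent_le ht1 ?_
  push_cast
  linarith

/-- the main constant -/
lemma par_B1 {p K : ℝ} (hp : 2 < p) {n : ℕ} (hn : 0 < n) :
    (((n ^ 3 : ℕ) : ℝ) ^ p * (5 * n / ((n ^ 3 : ℕ) : ℝ)) ^ (p / 2)) *
      ((2 * π / ((4 * (n ^ 3 * n) : ℕ) : ℝ)) ^ p *
        (K * (((n ^ 3 : ℕ) : ℝ) * n) ^ (p / 2))) = K * ((π / 2) ^ p * 5 ^ (p / 2)) := by
  have hn' : (0 : ℝ) < n := by exact_mod_cast hn
  push_cast
  have e1 : ((n : ℝ) ^ 3) ^ p * (2 * π / (4 * ((n : ℝ) ^ 3 * n))) ^ p = (π / 2 / n) ^ p := by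
    rw [← Real.mul_rpow (by positivity) (by positivity)]
    congr 1
    field_simp
    norm_num
  have e2 : (5 * n / (n : ℝ) ^ 3) ^ (p / 2) * ((n : ℝ) ^ 3 * n) ^ (p / 2) =
      5 ^ (p / 2) * (n : ℝ) ^ p := by
    rw [← Real.mul_rpow (by positivity) (by positivity)]
    have : 5 * n / (n : ℝ) ^ 3 * ((n : ℝ) ^ 3 * n) = 5 * (n : ℝ) ^ 2 := by field_simp
    rw [this, Real.mul_rpow (by norm_num) (by positivity), ← Real.rpow_natCast (n : ℝ),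
      ← Real.rpow_mul hn'.le]
    congr 2
    push_cast
    ring
  calc _ = K * ((((n : ℝ) ^ 3) ^ p * (2 * π / (4 * ((n : ℝ) ^ 3 * n))) ^ p) *
        ((5 * n / (n : ℝ) ^ 3) ^ (p / 2) * ((n : ℝ) ^ 3 * n) ^ (p / 2))) := by ring
    _ = K * ((π / 2 / n) ^ p * (5 ^ (p / 2) * (n : ℝ) ^ p)) := by rw [e1, e2]
    _ = K * (((π / 2 / n) ^ p * (n : ℝ) ^ p) * 5 ^ (p / 2)) := by ring
    _ = _ := by
        rw [← Real.mul_rpow (by positivity) hn'.le, div_mul_cancel₀ _ hn'.ne']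

lemma rpow_t20 {t : ℕ} (s : ℝ) : ((t : ℝ) ^ 20) ^ s = (t : ℝ) ^ (20 * s) := by
  rw [← Real.rpow_natCast (t : ℝ), ← Real.rpow_mul (by positivity)]
  push_cast
  rfl

/-- the error of the smoothing -/
lemma par_B2 {p K : ℝ} (hp : 2 < p) (hK : 0 < K) {t r : ℕ} (ht : 16 ≤ t)
    (hr : r ≤ (t ^ 20) ^ 3) :
    ((t ^ 20 * LL p t : ℕ) : ℝ) * ((2 * π / ((4 * ((t ^ 20) ^ 3 * t ^ 20) : ℕ) : ℝ)) ^ p *
        (K * ((r : ℝ) * ((t ^ 20 : ℕ) : ℝ)) ^ (p / 2))) ≤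
      2 * ((π / 2) ^ p * K) * (t : ℝ) ^ (-(p - 2)) := by
  have ht1 : (1 : ℝ) ≤ t := by exact_mod_cast (by omega : 1 ≤ t)
  have ht0 : (0 : ℝ) < t := by linarith
  have hr' : (r : ℝ) ≤ ((t : ℝ) ^ 20) ^ 3 := by exact_mod_cast hr
  have hL := LL_le hp ht
  push_cast
  set n : ℝ := (t : ℝ) ^ 20 with hn
  have hn0 : 0 < n := by positivity
  have e1 : ((r : ℝ) * n) ^ (p / 2) ≤ (n ^ 4) ^ (p / 2) := by
    refine Real.rpow_le_rpow (by positivity) ?_ (by linarith)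
    calc (r : ℝ) * n ≤ n ^ 3 * n := mul_le_mul_of_nonneg_right hr' hn0.le
      _ = n ^ 4 := by ring
  have e2 : (n ^ 4) ^ (p / 2) = (n ^ 2) ^ p := by
    rw [← Real.rpow_natCast n, ← Real.rpow_natCast n, ← Real.rpow_mul hn0.le,
      ← Real.rpow_mul hn0.le]
    congr 1
    push_cast
    ring
  have e3 : (2 * π / (4 * (n ^ 3 * n))) ^ p * (n ^ 2) ^ p = (π / 2) ^ p * n ^ (-(2 * p)) := by
    rw [← Real.mul_rpow (by positivity) (by positivity)]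
    have : 2 * π / (4 * (n ^ 3 * n)) * n ^ 2 = π / 2 * (n ^ 2)⁻¹ := by field_simp; norm_num
    rw [this, Real.mul_rpow (by positivity) (by positivity), Real.inv_rpow (by positivity),
      ← Real.rpow_natCast n, ← Real.rpow_mul hn0.le, ← Real.rpow_neg hn0.le]
    push_cast
    rfl
  have e4 : n * (2 * (t : ℝ) ^ (p - 2)) * n ^ (-(2 * p)) ≤ 2 * (t : ℝ) ^ (-(p - 2)) := by
    have e5 : n * (2 * (t : ℝ) ^ (p - 2)) * n ^ (-(2 * p)) =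
        2 * (t : ℝ) ^ (20 * 1 + (p - 2) + 20 * (-(2 * p))) := by
      rw [Real.rpow_add ht0, Real.rpow_add ht0, ← rpow_t20, ← rpow_t20, Real.rpow_one, ← hn]
      ring
    rw [e5]
    refine mul_le_mul_of_nonneg_left ?_ (by norm_num)
    refine Real.rpow_le_rpow_of_exponent_le ht1 ?_
    linarith
  calc n * LL p t * ((2 * π / (4 * (n ^ 3 * n))) ^ p * (K * ((r : ℝ) * n) ^ (p / 2))) ≤
        n * (2 * (t : ℝ) ^ (p - 2)) *
          ((2 * π / (4 * (n ^ 3 * n))) ^ p * (K * (n ^ 2) ^ p)) := by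
        rw [← e2]
        refine mul_le_mul (mul_le_mul_of_nonneg_left hL hn0.le) ?_ (by positivity) (by positivity)
        refine mul_le_mul_of_nonneg_left ?_ (by positivity)
        exact mul_le_mul_of_nonneg_left e1 hK.le
    _ = (n * (2 * (t : ℝ) ^ (p - 2))) * K *
        ((2 * π / (4 * (n ^ 3 * n))) ^ p * (n ^ 2) ^ p) := by ring
    _ = (n * (2 * (t : ℝ) ^ (p - 2)) * n ^ (-(2 * p))) * ((π / 2) ^ p * K) := by
        rw [e3]; ring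
    _ ≤ (2 * (t : ℝ) ^ (-(p - 2))) * ((π / 2) ^ p * K) :=
        mul_le_mul_of_nonneg_right e4 (by positivity)
    _ = _ := by ring

/-- the lower bound condition -/
lemma par_low {p K : ℝ} (hp : 2 < p) (hK : 0 < K) {t : ℕ} (ht : 16 ≤ t) :
    ((t ^ 20 * LL p t : ℕ) : ℝ) * ((π / ((t ^ 20 : ℕ) : ℝ)) ^ p *
      (K * ((t ^ 20 : ℕ) : ℝ) ^ (p / 2))) ≤ 2 * (π ^ p * K) * (t : ℝ) ^ (-(p - 2)) := by
  have ht1 : (1 : ℝ) ≤ t := by exact_mod_cast (by omega : 1 ≤ t)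
  have ht0 : (0 : ℝ) < t := by linarith
  have hL := LL_le hp ht
  push_cast
  set n : ℝ := (t : ℝ) ^ 20 with hn
  have hn0 : 0 < n := by positivity
  have e1 : (π / n) ^ p = π ^ p * n ^ (-p) := by
    rw [Real.div_rpow (by positivity) hn0.le, Real.rpow_neg hn0.le]
    rfl
  have e4 : n * (2 * (t : ℝ) ^ (p - 2)) * n ^ (-p) * n ^ (p / 2) ≤
      2 * (t : ℝ) ^ (-(p - 2)) := by
    have e5 : n * (2 * (t : ℝ) ^ (p - 2)) * n ^ (-p) * n ^ (p / 2) =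
        2 * (t : ℝ) ^ (20 * 1 + (p - 2) + 20 * (-p) + 20 * (p / 2)) := by
      rw [Real.rpow_add ht0, Real.rpow_add ht0, Real.rpow_add ht0, ← rpow_t20, ← rpow_t20,
        ← rpow_t20, Real.rpow_one, ← hn]
      ring
    rw [e5]
    refine mul_le_mul_of_nonneg_left ?_ (by norm_num)
    refine Real.rpow_le_rpow_of_exponent_le ht1 ?_
    linarith
  rw [e1]
  calc n * LL p t * (π ^ p * n ^ (-p) * (K * n ^ (p / 2))) ≤
        n * (2 * (t : ℝ) ^ (p - 2)) * (π ^ p * n ^ (-p) * (K * n ^ (p / 2))) :=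
        mul_le_mul_of_nonneg_right (mul_le_mul_of_nonneg_left hL hn0.le) (by positivity)
    _ = (n * (2 * (t : ℝ) ^ (p - 2)) * n ^ (-p) * n ^ (p / 2)) * (π ^ p * K) := by ring
    _ ≤ (2 * (t : ℝ) ^ (-(p - 2))) * (π ^ p * K) :=
        mul_le_mul_of_nonneg_right e4 (by positivity)
    _ = _ := by ring

end Pool.Agent.W533.V
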