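import Pool.Agent.W533.V.Incr
import Pool.Agent.W101.UP.Path

set_option autoImplicit false
set_option linter.unusedSectionVars false
set_option linter.unusedSimpArgs false

/-!
The path estimate for the smoothed function.
-/

open Finset

namespace Pool.Agent.W533.V

lemma add_rpow_le {p x y : ℝ} (hp : 0 ≤ p) (hx : 0 ≤ x) (hy : 0 ≤ y) :
    (x + y) ^ p ≤ 2 ^ p * (x ^ p + y ^ p) := by
  have hx' := Real.rpow_nonneg hx p
  have hy' := Real.rpow_nonneg hy p
  have h2 : (0 : ℝ) ≤ 2 ^ p := by positivity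
  rcases le_total x y with h | h
  · calc (x + y) ^ p ≤ (2 * y) ^ p := Real.rpow_le_rpow (by positivity) (by linarith) hp
      _ = 2 ^ p * y ^ p := Real.mul_rpow (by norm_num) hy
      _ ≤ _ := mul_le_mul_of_nonneg_left (by linarith) h2
  · calc (x + y) ^ p ≤ (2 * x) ^ p := Real.rpow_le_rpow (by positivity) (by linarith) hp
      _ = 2 ^ p * x ^ p := Real.mul_rpow (by norm_num) hx
      _ ≤ _ := mul_le_mul_of_nonneg_left (by linarith) h2

lemma add3_rpow_le {p x y w : ℝ} (hp : 0 ≤ p) (hx : 0 ≤ x) (hy : 0 ≤ y) (hw : 0 ≤ w) :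
    (x + y + w) ^ p ≤ 3 ^ p * (x ^ p + y ^ p + w ^ p) := by
  have hx' := Real.rpow_nonneg hx p
  have hy' := Real.rpow_nonneg hy p
  have hw' := Real.rpow_nonneg hw p
  have h2 : (0 : ℝ) ≤ 3 ^ p := by positivity
  have key : ∀ M : ℝ, 0 ≤ M → x ≤ M → y ≤ M → w ≤ M → (x + y + w) ^ p ≤ 3 ^ p * M ^ p := by
    intro M hM h1 h2 h3
    rw [← Real.mul_rpow (by norm_num) hM]
    exact Real.rpow_le_rpow (by positivity) (by linarith) hp
  rcases le_total x y with h | h
  · rcases le_total y w with h' | h'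
    · exact (key w hw (h.trans h') h' le_rfl).trans (mul_le_mul_of_nonneg_left (by linarith) h2)
    · exact (key y hy h le_rfl h').trans (mul_le_mul_of_nonneg_left (by linarith) h2)
  · rcases le_total x w with h' | h'
    · exact (key w hw h' (h.trans h') le_rfl).trans (mul_le_mul_of_nonneg_left (by linarith) h2)
    · exact (key x hx le_rfl h h').trans (mul_le_mul_of_nonneg_left (by linarith) h2)

section

variable {G : Type} [AddCommGroup G] {n : ℕ}

open Classical in
/-- small increments -/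
noncomputable def Sm (p : ℝ) (r : ℕ) (c : (Fin n → ℤ) →+ G) (v : G → ℝ) (w : Fin n → Bool)
    (η : ℝ) (z : G) : ℝ :=
  if |inc r c v w z| ≤ η * rr r c v z then |inc r c v w z| ^ p else 0

open Classical in
/-- large increments -/
noncomputable def Lr (p : ℝ) (r : ℕ) (c : (Fin n → ℤ) →+ G) (v : G → ℝ) (w : Fin n → Bool)
    (η : ℝ) (z : G) : ℝ :=
  if |inc r c v w z| ≤ η * rr r c v z then 0 else
    (|Usm (r + 1) c v z| + rr r c v z) ^ (p - 2) * inc r c v w z ^ 2

lemma Sm_nonneg (p : ℝ) (r : ℕ) (c : (Fin n → ℤ) →+ G) (v : G → ℝ) (w : Fin n → Bool)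
    (η : ℝ) (z : G) : 0 ≤ Sm p r c v w η z := by
  unfold Sm
  split_ifs
  · positivity
  · exact le_rfl

lemma Lr_nonneg (p : ℝ) (r : ℕ) (c : (Fin n → ℤ) →+ G) (v : G → ℝ) (w : Fin n → Bool)
    (η : ℝ) (z : G) : 0 ≤ Lr p r c v w η z := by
  unfold Lr
  have := rr_nonneg r c v z
  split_ifs
  · exact le_rfl
  · positivity

variable {N : ℕ}

lemma Good.path {r : ℕ} {W : Fin N → Fin n → Bool} {μ : ℝ} (g : Good n N (r + 1) W μ)
    {p : ℝ} (hp : 2 < p) (c : (Fin n → ℤ) →+ G) (v : G → ℝ) (w : Fin n → Bool) (η : ℝ)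
    (T : ℕ) (z : G) :
    |Usm r c v (z + (2 * T) • c (sv w)) - Usm r c v z| ^ p ≤
      6 ^ p * ((T : ℝ) ^ (p - 1) * ∑ l ∈ range T, Sm p r c v w η (z + (2 * l + 1) • c (sv w)) +
        (p / 2) ^ 2 * (T * ∑ l ∈ range T, Lr p r c v w η (z + (2 * l + 1) • c (sv w)))) := by
  classical
  set e := c (sv w) with he
  set u : ℕ → ℝ := fun l => Usm r c v (z + (2 * l) • e) with hu
  set zz : ℕ → G := fun l => z + (2 * l + 1) • e with hzz
  have hp0 : 0 ≤ p := by linarith
  have hq : 1 ≤ p / 2 := by linarith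
  have e1 : ∀ l, z + (2 * (l + 1)) • e = zz l + e := by
    intro l
    simp only [hzz]
    rw [add_assoc, ← succ_nsmul]
    rfl
  have e2 : ∀ l, z + (2 * l) • e = zz l - e := by
    intro l
    simp only [hzz]
    rw [add_sub_assoc, succ_nsmul, add_sub_cancel_right]
  have hinc : ∀ l, u (l + 1) - u l = inc r c v w (zz l) := by
    intro l
    simp only [hu, inc, ← he]
    rw [e1, e2]
  set Lg : Finset ℕ := (range T).filter fun l => ¬ |inc r c v w (zz l)| ≤ η * rr r c v (zz l)
    with hLg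
  have hpath := Pool.Agent.W101.UP.path (p / 2) hq T u Lg
  have hu0 : u 0 = Usm r c v z := by simp [hu]
  have hT : u T = Usm r c v (z + (2 * T) • e) := rfl
  rw [← hT, ← hu0]
  set s := ∑ l ∈ range T \ Lg, |u (l + 1) - u l| with hs
  set A := ∑ l ∈ range T ∩ Lg, |Phi (p / 2) (u (l + 1)) - Phi (p / 2) (u l)| with hA
  have hs0 : 0 ≤ s := Finset.sum_nonneg fun _ _ => abs_nonneg _
  have hA0 : 0 ≤ A := Finset.sum_nonneg fun _ _ => abs_nonneg _
  -- the small part
  have hsp : s ^ p ≤ (T : ℝ) ^ (p - 1) * ∑ l ∈ range T, Sm p r c v w η (zz l) := by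
    have h1 := Real.rpow_sum_le_const_mul_sum_rpow (range T \ Lg) (fun l => u (l + 1) - u l)
      (p := p) (by linarith)
    refine h1.trans ?_
    have hcard : ((range T \ Lg).card : ℝ) ≤ T := by
      have := Finset.card_le_card (Finset.sdiff_subset (s := range T) (t := Lg))
      rw [Finset.card_range] at this
      exact_mod_cast this
    refine mul_le_mul (Real.rpow_le_rpow (by positivity) hcard (by linarith)) ?_
      (Finset.sum_nonneg fun _ _ => by positivity) (by positivity)
    refine le_trans (le_of_eq ?_) (Finset.sum_le_sum_of_subset_of_nonneg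
      (Finset.sdiff_subset (s := range T) (t := Lg)) fun l _ _ => Sm_nonneg _ _ _ _ _ _ _)
    refine Finset.sum_congr rfl fun l hl => ?_
    rw [hinc]
    obtain ⟨h2, h3⟩ := Finset.mem_sdiff.1 hl
    have h4 : |inc r c v w (zz l)| ≤ η * rr r c v (zz l) := by
      by_contra hcon
      exact h3 (Finset.mem_filter.2 ⟨h2, hcon⟩)
    unfold Sm
    rw [if_pos h4]
  -- the large part
  have hAp : A ^ 2 ≤ (p / 2) ^ 2 * (T * ∑ l ∈ range T, Lr p r c v w η (zz l)) := by
    have h1 := sq_sum_le_card_mul_sum_sq (s := range T ∩ Lg)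
      (f := fun l => |Phi (p / 2) (u (l + 1)) - Phi (p / 2) (u l)|)
    refine h1.trans ?_
    have hcard : ((range T ∩ Lg).card : ℝ) ≤ T := by
      have := Finset.card_le_card (Finset.inter_subset_left (s₁ := range T) (s₂ := Lg))
      rw [Finset.card_range] at this
      exact_mod_cast this
    have h2 : ∑ l ∈ range T ∩ Lg, |Phi (p / 2) (u (l + 1)) - Phi (p / 2) (u l)| ^ 2 ≤
        (p / 2) ^ 2 * ∑ l ∈ range T, Lr p r c v w η (zz l) := by
      rw [Finset.mul_sum]
      refine le_trans (Finset.sum_le_sum fun l hl => ?_) (Finset.sum_le_sum_of_subset_of_nonneg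
        (Finset.inter_subset_left (s₁ := range T) (s₂ := Lg))
        fun l _ _ => mul_nonneg (by positivity) (Lr_nonneg _ _ _ _ _ _ _))
      obtain ⟨h2, h3⟩ := Finset.mem_inter.1 hl
      have h4 := (Finset.mem_filter.1 h3).2
      unfold Lr
      rw [if_neg h4]
      have h5 := Pool.Agent.W101.UP.philip (p / 2) hq (u (l + 1)) (u l)
      rw [hinc] at h5
      set F := Usm (r + 1) c v (zz l)
      have hr := rr_nonneg r c v (zz l)
      have h6 : |u (l + 1)| ≤ |F| + rr r c v (zz l) := by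
        have h7 := abs_le_of_sq_le_sq ((g.near w c v (zz l)).trans (rr_sq r c v (zz l)).symm.le) hr
        have h8 : u (l + 1) = Usm r c v (zz l + c (sv w)) := by
          simp only [hu]
          rw [e1]
        rw [h8]
        have := abs_sub_abs_le_abs_sub (Usm r c v (zz l + c (sv w))) F
        linarith
      have h6' : |u l| ≤ |F| + rr r c v (zz l) := by
        have h7 := abs_le_of_sq_le_sq ((g.near' w c v (zz l)).trans (rr_sq r c v (zz l)).symm.le) hr
        have h8 : u l = Usm r c v (zz l - c (sv w)) := by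
          simp only [hu]
          rw [e2]
        rw [h8]
        have := abs_sub_abs_le_abs_sub (Usm r c v (zz l - c (sv w))) F
        linarith
      have h9 : |Phi (p / 2) (u (l + 1)) - Phi (p / 2) (u l)| ≤
          p / 2 * (|F| + rr r c v (zz l)) ^ (p / 2 - 1) * |inc r c v w (zz l)| := by
        refine h5.trans ?_
        refine mul_le_mul_of_nonneg_right ?_ (abs_nonneg _)
        refine mul_le_mul_of_nonneg_left ?_ (by positivity)
        exact Real.rpow_le_rpow (le_max_of_le_left (abs_nonneg _)) (max_le h6 h6') (by linarith)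
      refine (pow_le_pow_left₀ (abs_nonneg _) h9 2).trans (le_of_eq ?_)
      rw [mul_pow, mul_pow, sq_abs, mul_assoc]
      congr 2
      rw [← Real.rpow_natCast, ← Real.rpow_mul (by positivity)]
      congr 1
      push_cast
      ring
    calc _ ≤ (T : ℝ) * ((p / 2) ^ 2 * ∑ l ∈ range T, Lr p r c v w η (zz l)) :=
          mul_le_mul hcard h2 (Finset.sum_nonneg fun _ _ => by positivity) (by positivity)
      _ = _ := by ring
  -- conclusion
  have h1 : |u T - u 0| ^ p ≤ (3 * s + 2 * A ^ (1 / (p / 2))) ^ p :=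
    Real.rpow_le_rpow (abs_nonneg _) hpath hp0
  have h2 := add_rpow_le hp0 (by positivity : 0 ≤ 3 * s) (by positivity : 0 ≤ 2 * A ^ (1 / (p / 2)))
  have h3 : (3 * s) ^ p = 3 ^ p * s ^ p := Real.mul_rpow (by norm_num) hs0
  have h4 : (2 * A ^ (1 / (p / 2))) ^ p = 2 ^ p * A ^ 2 := by
    rw [Real.mul_rpow (by norm_num) (by positivity), ← Real.rpow_mul hA0]
    congr 1
    rw [← Real.rpow_natCast]
    congr 1
    push_cast
    field_simp
  rw [h3, h4] at h2
  have h5 : (2 : ℝ) ^ p * (3 ^ p * s ^ p + 2 ^ p * A ^ 2) ≤ 6 ^ p * (s ^ p + A ^ 2) := by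
    have h6 : (6 : ℝ) ^ p = 2 ^ p * 3 ^ p := by
      rw [← Real.mul_rpow (by norm_num) (by norm_num)]; norm_num
    have h7 : (2 : ℝ) ^ p ≤ 3 ^ p := Real.rpow_le_rpow (by norm_num) (by norm_num) hp0
    rw [h6, mul_assoc]
    refine mul_le_mul_of_nonneg_left ?_ (by positivity)
    have : (2 : ℝ) ^ p * A ^ 2 ≤ 3 ^ p * A ^ 2 := mul_le_mul_of_nonneg_right h7 (sq_nonneg _)
    linarith
  refine h1.trans (h2.trans (h5.trans ?_))
  exact mul_le_mul_of_nonneg_left (add_le_add hsp hAp) (by positivity)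

end

end Pool.Agent.W533.V
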