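import Pool.Agent.W533.V.Est
import Pool.Agent.W347.UP.Unif
import Pool.Agent.W991.UP.Net

set_option autoImplicit false
set_option linter.unusedSectionVars false
set_option linter.unusedSimpArgs false

/-!
Existence of a good family of sign vectors.
-/

open Finset Real

namespace Pool.Agent.W533.V

open Pool.Agent.W533.U (ellp sgz sgz_cast)

lemma exists_W {n N M : ℕ} [NeZero M] (hn : 0 < n) (hnN : n ≤ N) {p : ℝ} (hp : 0 < p) {ε μ : ℝ}
    (hε : 0 < ε) (hμ : 0 ≤ μ) (eps : ℝ)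
    (hsum : Real.exp (-(N : ℝ)) +
      2 * (M : ℝ) ^ n * Real.exp (-(ε ^ 2 * N / (2 * ((2 : ℝ) ^ p) ^ 2))) +
      2 * (N : ℝ) ^ 2 * Real.exp (-(μ ^ 2 * n / 2)) < 1) :
    ∃ W : Fin N → Fin n → Bool,
      (∀ b : Fin n → ℝ, ∑ i, (∑ j, sg (W i j) * b j) ^ 2 ≤ 1000 * N * ∑ j, b j ^ 2) ∧
      (∀ i l, i ≠ l → |ip (W i) (W l)| ≤ μ * n) ∧
      ∀ y : Fin n → ZMod M,
        |PI M p eps W y - PI M p eps (fun w : Fin n → Bool => w) y| ≤ ε := by
  classical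
  have h1 := Pool.Agent.W991.UP.net n N hn hnN
  have h2 := Pool.Agent.W347.UP.unif n N (Fin n → ZMod M) (fun h w => Psi M p (pr M w h))
    ((2 : ℝ) ^ p) ε (by positivity) hε
    (fun h w => ⟨Psi_nonneg _ _ _, Psi_le M hp.le _⟩)
  have h3 := Pool.Agent.W347.UP.inc n N μ hμ
  set S1 := (Finset.univ : Finset (Fin N × Fin n → Bool)).filter fun W =>
    ¬ ∀ b : Fin n → ℝ, ∑ i, (∑ j, sg (W (i, j)) * b j) ^ 2 ≤ 1000 * N * ∑ j, b j ^ 2 with hS1
  set S2 := (Finset.univ : Finset (Fin N × Fin n → Bool)).filter fun W =>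
    ∃ h, ε < |(∑ i, Psi M p (pr M (fun j => W (i, j)) h)) / N -
      (∑ w : Fin n → Bool, Psi M p (pr M w h)) / 2 ^ n| with hS2
  set S3 := (Finset.univ : Finset (Fin N × Fin n → Bool)).filter fun W =>
    ∃ i l, i ≠ l ∧ μ * n < |∑ j, sg (W (i, j)) * sg (W (l, j))| with hS3
  have hex : ∃ W, W ∉ S1 ∪ S2 ∪ S3 := by
    by_contra hcon
    push Not at hcon
    have hall : (S1 ∪ S2 ∪ S3) = Finset.univ := Finset.eq_univ_iff_forall.2 hcon
    have hc : ((S1 ∪ S2 ∪ S3).card : ℝ) = 2 ^ (N * n) := by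
      rw [hall]; simp [pow_mul]
    have hle : ((S1 ∪ S2 ∪ S3).card : ℝ) ≤ S1.card + S2.card + S3.card := by
      have a1 := Finset.card_union_le (S1 ∪ S2) S3
      have a2 := Finset.card_union_le S1 S2
      exact_mod_cast (a1.trans (by omega))
    rw [hc] at hle
    have hcardH : ((Fintype.card (Fin n → ZMod M) : ℕ) : ℝ) = (M : ℝ) ^ n := by
      simp
    have h2' : (S2.card : ℝ) ≤ 2 ^ (N * n) * (2 * (M : ℝ) ^ n *
        Real.exp (-(ε ^ 2 * N / (2 * ((2 : ℝ) ^ p) ^ 2)))) := by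
      rw [← hcardH]
      exact h2
    have hpos : (0 : ℝ) < 2 ^ (N * n) := by positivity
    have h3' : (S3.card : ℝ) ≤ 2 ^ (N * n) * (2 * N ^ 2 * Real.exp (-(μ ^ 2 * n / 2))) := h3
    have h1' : (S1.card : ℝ) ≤ 2 ^ (N * n) * Real.exp (-(N : ℝ)) := h1
    have h4 : (2 : ℝ) ^ (N * n) ≤ 2 ^ (N * n) * (Real.exp (-(N : ℝ)) +
      2 * (M : ℝ) ^ n * Real.exp (-(ε ^ 2 * N / (2 * ((2 : ℝ) ^ p) ^ 2))) +
      2 * (N : ℝ) ^ 2 * Real.exp (-(μ ^ 2 * n / 2))) := by linarith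
    nlinarith
  obtain ⟨W, hW⟩ := hex
  rw [Finset.mem_union, Finset.mem_union, not_or, not_or] at hW
  obtain ⟨⟨hW1, hW2⟩, hW3⟩ := hW
  refine ⟨fun i j => W (i, j), ?_, ?_, ?_⟩
  · by_contra hcon
    exact hW1 (Finset.mem_filter.2 ⟨Finset.mem_univ _, hcon⟩)
  · intro i l hil
    by_contra hcon
    exact hW3 (Finset.mem_filter.2 ⟨Finset.mem_univ _, i, l, hil, not_le.1 hcon⟩)
  · intro y
    by_contra hcon
    refine hW2 (Finset.mem_filter.2 ⟨Finset.mem_univ _, y, ?_⟩)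
    have h5 := not_le.1 hcon
    unfold PI at h5
    rw [add_sub_add_right_eq_sub] at h5
    have hcard : ((Fintype.card (Fin n → Bool) : ℕ) : ℝ) = 2 ^ n := by simp
    rw [hcard, Fintype.card_fin] at h5
    exact h5

end Pool.Agent.W533.V
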