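import Pool.Agent.W533.U.Embed
import Pool.Agent.W533.V.Defs

set_option autoImplicit false
set_option linter.unusedSectionVars false
set_option linter.unusedSimpArgs false

/-!
Smoothing by sums of independent signs: exchange identity, Gram matrix, Bessel inequality.
-/

open Finset

namespace Pool.Agent.W533.V

open Pool.Agent.W533.U (sgz sgz_cast sgz_not sgn_two cN cN_pos)

lemma sg_eq (b : Bool) : sg b = Pool.Agent.W533.U.sg b := rfl

lemma sgz_castV (b : Bool) : ((sgz b : ℤ) : ℝ) = sg b := sgz_cast b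

lemma sg_mul_self (b : Bool) : sg b * sg b = 1 := by cases b <;> simp [sg]

lemma sg_not' (b : Bool) : sg (!b) = - sg b := by cases b <;> simp [sg]

lemma abs_sg' (b : Bool) : |sg b| = 1 := by cases b <;> simp [sg]

/-- rows of signs -/
abbrev Xi (m n : ℕ) : Type := Fin m → Fin n → Bool

/-- integer sign vector -/
def sv {n : ℕ} (w : Fin n → Bool) : Fin n → ℤ := fun j => sgz (w j)

/-- opposite sign vector -/
def opp {n : ℕ} (w : Fin n → Bool) : Fin n → Bool := fun j => !(w j)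

lemma sv_opp {n : ℕ} (w : Fin n → Bool) : sv (opp w) = - sv w := by
  funext j; simp [sv, opp, sgz_not]

lemma sg_opp {n : ℕ} (w : Fin n → Bool) (j : Fin n) : sg (opp w j) = - sg (w j) := sg_not' _

/-- sum of the rows -/
def Yv {m n : ℕ} (ξ : Xi m n) : Fin n → ℤ := fun j => ∑ k, sgz (ξ k j)

/-- column mean -/
noncomputable def cm {m n : ℕ} (ξ : Xi m n) (j : Fin n) : ℝ := (∑ k, sg (ξ k j)) / m

/-- number of sign matrices -/
noncomputable def cX (m n : ℕ) : ℝ := ((2 : ℝ) ^ n) ^ m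

lemma cX_pos (m n : ℕ) : 0 < cX m n := by unfold cX; positivity

lemma sum_one_Xi (m n : ℕ) : (∑ _ξ : Xi m n, (1 : ℝ)) = cX m n := by
  simp [cX]

lemma cX_succ (r n : ℕ) : cX (r + 1) n = 2 ^ n * cX r n := by
  unfold cX; rw [pow_succ]; ring

/-- exchanging rows column by column -/
def exE {r n : ℕ} (k : Fin n → Fin (r + 1)) : Xi (r + 1) n ≃ Xi (r + 1) n where
  toFun ξ := fun l j => ξ (Equiv.swap 0 (k j) l) j
  invFun ξ := fun l j => ξ (Equiv.swap 0 (k j) l) j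
  left_inv ξ := by
    funext l j
    simp
  right_inv ξ := by
    funext l j
    simp

lemma exch {r n : ℕ} (h : (Fin n → ℤ) → ℝ) (c : Fin n → ℝ) (k : Fin n → Fin (r + 1)) :
    ∑ ξ : Xi (r + 1) n, h (Yv ξ) * ∏ j, (1 + c j * sg (ξ (k j) j)) =
      ∑ ξ : Xi (r + 1) n, h (Yv ξ) * ∏ j, (1 + c j * sg (ξ 0 j)) := by
  rw [← Equiv.sum_comp (exE k)]
  refine Finset.sum_congr rfl fun ξ _ => ?_
  have h1 : Yv (exE k ξ) = Yv ξ := by
    funext j
    exact Equiv.sum_comp (Equiv.swap 0 (k j)) (fun l => sgz (ξ l j))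
  rw [h1]
  congr 1
  refine Finset.prod_congr rfl fun j _ => ?_
  have : exE k ξ (k j) j = ξ 0 j := by
    show ξ (Equiv.swap 0 (k j) (k j)) j = ξ 0 j
    rw [Equiv.swap_apply_right]
  rw [this]

lemma exch_avg {r n : ℕ} (h : (Fin n → ℤ) → ℝ) (c : Fin n → ℝ) :
    ∑ ξ : Xi (r + 1) n, h (Yv ξ) * ∏ j, (1 + c j * cm ξ j) =
      ∑ ξ : Xi (r + 1) n, h (Yv ξ) * ∏ j, (1 + c j * sg (ξ 0 j)) := by
  have hr : (0 : ℝ) < ((r + 1 : ℕ) : ℝ) := by positivity
  have e1 : ∀ ξ : Xi (r + 1) n, ∏ j, (1 + c j * cm ξ j) =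
      ∑ k : Fin n → Fin (r + 1), (1 / ((r + 1 : ℕ) : ℝ)) ^ n * ∏ j, (1 + c j * sg (ξ (k j) j)) := by
    intro ξ
    have e2 : ∀ j, 1 + c j * cm ξ j =
        ∑ l : Fin (r + 1), 1 / ((r + 1 : ℕ) : ℝ) * (1 + c j * sg (ξ l j)) := by
      intro j
      rw [← Finset.mul_sum, Finset.sum_add_distrib, ← Finset.mul_sum]
      unfold cm
      simp
      field_simp
    simp only [e2]
    rw [Finset.prod_univ_sum, Fintype.piFinset_univ]
    refine Finset.sum_congr rfl fun k _ => ?_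
    rw [Finset.prod_mul_distrib]
    simp
  simp only [e1, Finset.mul_sum]
  rw [Finset.sum_comm]
  have e3 : ∀ k : Fin n → Fin (r + 1), ∑ ξ : Xi (r + 1) n,
      h (Yv ξ) * ((1 / ((r + 1 : ℕ) : ℝ)) ^ n * ∏ j, (1 + c j * sg (ξ (k j) j))) =
      (1 / ((r + 1 : ℕ) : ℝ)) ^ n *
        ∑ ξ : Xi (r + 1) n, h (Yv ξ) * ∏ j, (1 + c j * sg (ξ 0 j)) := by
    intro k
    rw [← exch h c k, Finset.mul_sum]
    refine Finset.sum_congr rfl fun ξ _ => by ring
  simp only [e3]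
  rw [Finset.sum_const, Finset.card_univ, nsmul_eq_mul]
  simp
  field_simp

lemma Yv_cons {r n : ℕ} (a : Fin n → Bool) (ξ : Xi r n) :
    Yv (Fin.cons a ξ : Xi (r + 1) n) = sv a + Yv ξ := by
  funext j
  simp [Yv, sv, Fin.sum_univ_succ]

lemma prod_ind {n : ℕ} (w a : Fin n → Bool) :
    ∏ j, (1 + sg (w j) * sg (a j)) = if a = w then (2 : ℝ) ^ n else 0 := by
  by_cases h : a = w
  · subst h
    simp only [sg_mul_self, if_true]
    norm_num
  · rw [if_neg h]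
    obtain ⟨j, hj⟩ := Function.ne_iff.1 h
    refine Finset.prod_eq_zero (Finset.mem_univ j) ?_
    revert hj
    cases a j <;> cases w j <;> simp [sg]

/-- conditioning on the first row -/
lemma row0 {r n : ℕ} (h : (Fin n → ℤ) → ℝ) (w : Fin n → Bool) :
    ∑ ξ : Xi (r + 1) n, h (Yv ξ) * ∏ j, (1 + sg (w j) * sg (ξ 0 j)) =
      2 ^ n * ∑ ξ : Xi r n, h (sv w + Yv ξ) := by
  rw [Pool.Agent.W533.U.sum_cons, Finset.sum_eq_single w]
  · rw [Finset.mul_sum]
    refine Finset.sum_congr rfl fun ξ _ => ?_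
    rw [Yv_cons]
    simp only [Fin.cons_zero]
    rw [prod_ind, if_pos rfl]
    ring
  · intro a _ ha
    refine Finset.sum_eq_zero fun ξ _ => ?_
    simp only [Fin.cons_zero]
    rw [prod_ind, if_neg ha, mul_zero]
  · intro hh; exact absurd (Finset.mem_univ _) hh

/-- tilting density -/
noncomputable def Pw {m n : ℕ} (w : Fin n → Bool) (ξ : Xi m n) : ℝ :=
  ∏ j, (1 + sg (w j) * cm ξ j)

lemma Pw_sum {r n : ℕ} (h : (Fin n → ℤ) → ℝ) (w : Fin n → Bool) :
    (∑ ξ : Xi (r + 1) n, h (Yv ξ) * Pw w ξ) / cX (r + 1) n =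
      (∑ ξ : Xi r n, h (sv w + Yv ξ)) / cX r n := by
  have h1 := exch_avg (r := r) h (fun j => sg (w j))
  have h2 := row0 (r := r) h w
  unfold Pw
  rw [h1, h2, cX_succ]
  have := (cX_pos r n).ne'
  field_simp

lemma col_sum {m : ℕ} (hm : 0 < m) (a b : ℝ) :
    ∑ c : Fin m → Bool, (1 + a * ((∑ k, sg (c k)) / m)) * (1 + b * ((∑ k, sg (c k)) / m)) =
      2 ^ m * (1 + a * b / m) := by
  have hm' : (0 : ℝ) < m := by exact_mod_cast hm
  have h1 : ∑ c : Fin m → Bool, ∑ k, sg (c k) = 0 := by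
    rw [Finset.sum_comm]
    refine Finset.sum_eq_zero fun k _ => ?_
    rw [Pool.Agent.W533.U.sum_avg k]
    refine Finset.sum_eq_zero fun c _ => ?_
    rw [Pool.Agent.W533.U.fl_same, sg_not']
    ring
  have h2 : ∑ c : Fin m → Bool, (∑ k, sg (c k)) ^ 2 = 2 ^ m * m := by
    have := sgn_two (β := Fin m) (fun _ => 1)
    simp only [one_mul] at this
    have e : ∀ b, Pool.Agent.W533.U.sg b = sg b := fun _ => rfl
    simp only [e] at this
    rw [this]
    simp [cN]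
  have e : ∀ c : Fin m → Bool, (1 + a * ((∑ k, sg (c k)) / m)) *
      (1 + b * ((∑ k, sg (c k)) / m)) =
      1 + (a + b) / m * (∑ k, sg (c k)) + a * b / m ^ 2 * (∑ k, sg (c k)) ^ 2 := by
    intro c
    field_simp
    ring
  simp only [e, Finset.sum_add_distrib, ← Finset.mul_sum, h1, h2]
  simp
  field_simp

/-- Gram matrix of the densities -/
lemma Pw_gram {m n : ℕ} (hm : 0 < m) (w w' : Fin n → Bool) :
    (∑ ξ : Xi m n, Pw w ξ * Pw w' ξ) / cX m n = ∏ j, (1 + sg (w j) * sg (w' j) / m) := by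
  have e1 : ∑ ξ : Xi m n, Pw w ξ * Pw w' ξ = ∑ ζ : Fin n → Fin m → Bool,
      ∏ j, ((1 + sg (w j) * ((∑ k, sg (ζ j k)) / m)) *
        (1 + sg (w' j) * ((∑ k, sg (ζ j k)) / m))) := by
    rw [← Equiv.sum_comp (Equiv.piComm (fun (_ : Fin n) (_ : Fin m) => Bool))]
    refine Finset.sum_congr rfl fun ζ _ => ?_
    unfold Pw cm
    rw [← Finset.prod_mul_distrib]
    rfl
  rw [e1]
  have e2 := Finset.prod_univ_sum (fun _ : Fin n => (Finset.univ : Finset (Fin m → Bool)))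
    (fun j c => (1 + sg (w j) * ((∑ k, sg (c k)) / m)) * (1 + sg (w' j) * ((∑ k, sg (c k)) / m)))
  rw [Fintype.piFinset_univ] at e2
  rw [← e2]
  simp only [col_sum hm]
  rw [Finset.prod_mul_distrib]
  unfold cX
  simp
  rw [← pow_mul, ← pow_mul, mul_comm m n]
  field_simp

lemma Pw_mean {m n : ℕ} (hm : 0 < m) (w : Fin n → Bool) :
    (∑ ξ : Xi m n, Pw w ξ) / cX m n = 1 := by
  obtain ⟨r, rfl⟩ := Nat.exists_eq_succ_of_ne_zero hm.ne'
  have := Pw_sum (r := r) (n := n) (fun _ => 1) w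
  simp only [one_mul] at this
  rw [this, sum_one_Xi, div_self (cX_pos r n).ne']

/-- difference of opposite densities -/
noncomputable def tw {m n : ℕ} (w : Fin n → Bool) (ξ : Xi m n) : ℝ := Pw w ξ - Pw (opp w) ξ

lemma tw_mean {m n : ℕ} (hm : 0 < m) (w : Fin n → Bool) :
    (∑ ξ : Xi m n, tw w ξ) / cX m n = 0 := by
  unfold tw
  rw [Finset.sum_sub_distrib, sub_div, Pw_mean hm, Pw_mean hm, sub_self]

lemma tw_gram {m n : ℕ} (hm : 0 < m) (w w' : Fin n → Bool) :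
    (∑ ξ : Xi m n, tw w ξ * tw w' ξ) / cX m n =
      2 * (∏ j, (1 + sg (w j) * sg (w' j) / m) - ∏ j, (1 - sg (w j) * sg (w' j) / m)) := by
  have e : ∀ ξ : Xi m n, tw w ξ * tw w' ξ = Pw w ξ * Pw w' ξ - Pw w ξ * Pw (opp w') ξ -
      Pw (opp w) ξ * Pw w' ξ + Pw (opp w) ξ * Pw (opp w') ξ := fun ξ => by unfold tw; ring
  simp only [e, Finset.sum_add_distrib, Finset.sum_sub_distrib, add_div, sub_div, Pw_gram hm,
    sg_opp]
  have e2 : ∀ j, 1 + sg (w j) * -sg (w' j) / m = 1 - sg (w j) * sg (w' j) / (m : ℝ) := fun j => by ring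
  have e3 : ∀ j, 1 + -sg (w j) * sg (w' j) / m = 1 - sg (w j) * sg (w' j) / (m : ℝ) := fun j => by ring
  have e4 : ∀ j, 1 + -sg (w j) * -sg (w' j) / m = 1 + sg (w j) * sg (w' j) / (m : ℝ) := fun j => by ring
  simp only [e2, e3, e4]
  ring

end Pool.Agent.W533.V
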